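import Pool.Agent.KS6_90.CRG.Neg

set_option autoImplicit false

open Filter Topology Metric

namespace Pool.Agent.KS6_90.CRG

open Pool.Agent.Helper960.Crg

/-- dense sequences in compact sets -/
lemma exists_seq {K : Set ℂ} (hne : K.Nonempty) :
    ∃ lam : ℕ → ℂ, (∀ n, lam n ∈ K) ∧ K ⊆ closure (Set.range lam) := by
  have : Nonempty K := hne.to_subtype
  refine ⟨fun n => (TopologicalSpace.denseSeq K n : ℂ), fun n => (TopologicalSpace.denseSeq K n).2, ?_⟩
  intro ζ hζ
  rw [_root_.mem_closure_iff]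
  intro o ho hζo
  obtain ⟨n, hn⟩ := (TopologicalSpace.denseRange_denseSeq K).exists_mem_open
    (ho.preimage continuous_subtype_val) ⟨⟨ζ, hζ⟩, hζo⟩
  exact ⟨_, hn, ⟨n, rfl⟩⟩

/-- the lacunary function of type `σ` -/
noncomputable def G0 (σ : ℝ) (z : ℂ) : ℂ := lac (((σ * Real.exp 1 : ℝ) : ℂ) * z)

lemma G0_arg {σ : ℝ} (hσ : 0 < σ) (z : ℂ) : ‖((σ * Real.exp 1 : ℝ) : ℂ) * z‖ = σ * Real.exp 1 * ‖z‖ := by
  rw [norm_mul, Complex.norm_real, Real.norm_of_nonneg (by positivity)]

lemma G0_diff (σ : ℝ) : Differentiable ℂ (G0 σ) :=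
  lac_diff.comp (differentiable_id.const_mul _)

lemma G0_UB {σ : ℝ} (hσ : 0 < σ) : UB (G0 σ) (closedBall 0 σ) := by
  intro ε hε
  have he := Real.exp_pos 1
  obtain ⟨C, hC, hCb⟩ := lac_ub (ε := ε / (σ * Real.exp 1)) (by positivity)
  refine ⟨C, hC, fun z => ?_⟩
  have h := hCb (((σ * Real.exp 1 : ℝ) : ℂ) * z)
  rw [G0_arg hσ] at h
  refine h.trans (le_of_eq ?_)
  rw [H_ball 0 hσ.le]
  congr 2
  simp only [zero_mul, Complex.zero_re, zero_add]
  field_simp

/-- convergence of `φ(D) f` -/
lemma summable_of_crg {f φ : ℂ → ℂ} (hf : CRG f) (hφ : Differentiable ℂ φ) (z : ℂ) :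
    Summable (fun k : ℕ => coef φ k * iteratedDeriv k f z) := by
  obtain ⟨h1, h2, -, h4, h5, -⟩ := crg_data hf
  obtain ⟨σ, hσ⟩ := h2.isBounded.exists_norm_le
  have hσ0 : 0 ≤ σ := (norm_nonneg _).trans (hσ _ h4.some_mem)
  exact summable_T h1 h2 h4 h5 hσ (lt_add_one σ) (Dec_coef (by linarith) hφ.diffContOnCl) z

/-- a zero of the symbol at a corner destroys completely regular growth for some function with the
given diagram -/
theorem exists_bad {D : Set ℂ} (hD : IsCompact D) (hconv : Convex ℝ D)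
    (hint : (interior D).Nonempty) {lam : ℂ} (hcor : IsCorner D lam) {φ : ℂ → ℂ}
    (hφ : Differentiable ℂ φ) (hφ0 : ∃ z, φ z ≠ 0) (hlam0 : φ lam = 0) :
    ∃ f : ℂ → ℂ, CRG f ∧ conjDiagram f = D ∧ (∃ z, T (coef φ) f z ≠ 0) ∧ ¬ CRG (T (coef φ) f) := by
  obtain ⟨u, δ, D', hδ, hlamD, hD'c, hD'x, hD'ne, hD'D, hu1, hu2, hmax⟩ := corner_cut hD hconv hint hcor
  have hne : D.Nonempty := ⟨lam, hlamD⟩
  -- choice of `al` and `σ`
  set U : Set ℂ := interior D ∩ {ζ | -δ < ((ζ - lam) * u).re} with hU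
  have hUo : IsOpen U := isOpen_interior.inter (isOpen_lt continuous_const
    (Complex.continuous_re.comp ((continuous_id.sub continuous_const).mul continuous_const)))
  have hUne : U.Nonempty := by
    have h1 : lam ∈ closure (interior D) := by
      rw [hconv.closure_interior_eq_closure_of_nonempty_interior hint]
      exact subset_closure hlamD
    have h2 : IsOpen {ζ : ℂ | -δ < ((ζ - lam) * u).re} := isOpen_lt continuous_const
      (Complex.continuous_re.comp ((continuous_id.sub continuous_const).mul continuous_const))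
    obtain ⟨x, hx1, hx2⟩ := mem_closure_iff.mp h1 _ h2 (by
      show -δ < ((lam - lam) * u).re
      rw [sub_self, zero_mul, Complex.zero_re]; linarith)
    exact ⟨x, hx2, hx1⟩
  obtain ⟨al, halU, hal0⟩ : ∃ al ∈ U, φ al ≠ 0 := by
    by_contra hcon
    push Not at hcon
    obtain ⟨z, hz⟩ := hφ0
    obtain ⟨x, hx⟩ := hUne
    apply hz
    have h1 : AnalyticOnNhd ℂ φ Set.univ := fun y _ => hφ.analyticAt y
    have h2 : AnalyticOnNhd ℂ (fun _ : ℂ => (0 : ℂ)) Set.univ := fun y _ => analyticAt_const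
    have h3 : φ =ᶠ[𝓝 x] fun _ => (0 : ℂ) := by
      filter_upwards [hUo.mem_nhds hx] with y hy using hcon y hy
    have h4 := h1.eq_of_eventuallyEq h2 h3
    rw [h4]
  have hUφ : IsOpen (U ∩ {ζ | φ ζ ≠ 0}) :=
    hUo.inter (isOpen_ne_fun hφ.continuous continuous_const)
  obtain ⟨e, he, hbe⟩ := Metric.isOpen_iff.mp hUφ al ⟨halU, hal0⟩
  set σ : ℝ := e / 4 with hσdef
  have hσ : 0 < σ := by positivity
  have hballU : closedBall al (2 * σ) ⊆ U ∩ {ζ | φ ζ ≠ 0} :=
    (closedBall_subset_ball (by rw [hσdef]; linarith)).trans hbe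
  have hballD : closedBall al (2 * σ) ⊆ D := fun x hx => interior_subset (hballU hx).1.1
  set K : Set ℂ := closedBall al σ with hK
  have hKc : IsCompact K := isCompact_closedBall _ _
  have hKne : K.Nonempty := ⟨al, mem_closedBall_self hσ.le⟩
  have hHK : ∀ w, H K w = (al * w).re + σ * ‖w‖ := H_ball al hσ.le
  have hHKD : ∀ w, H K w + σ * ‖w‖ ≤ H D w := by
    intro w
    have h1 := H_mono hD ⟨al, mem_closedBall_self (by positivity)⟩ hballD w
    rw [H_ball al (by positivity)] at h1
    rw [hHK]; linarith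
  have hlamD' : lam ∉ D' := by
    intro h
    have := hu2 lam h
    rw [sub_self, zero_mul, Complex.zero_re] at this
    linarith
  -- `H D' u < Re (al u)`
  have hHD'u : H D' u < (al * u).re := by
    have h1 : H D' u ≤ (lam * u).re - δ := by
      apply H_le hD'ne
      intro ζ hζ
      have := hu2 ζ hζ
      rw [sub_mul, Complex.sub_re] at this
      linarith
    have h2 : -δ < ((al - lam) * u).re := halU.2
    rw [sub_mul, Complex.sub_re] at h2
    linarith
  have hu0 : u ≠ 0 := by
    intro h0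
    rw [h0, H_zero hD'c hD'ne, mul_zero, Complex.zero_re] at hHD'u
    exact lt_irrefl _ hHD'u
  have hun : 0 < ‖u‖ := norm_pos_iff.mpr hu0
  -- the functions
  obtain ⟨ls, hls, hlsd⟩ := exists_seq hD'ne
  set G : ℂ → ℂ := fun z => Complex.exp (al * z) * G0 σ z with hG
  set E : ℂ → ℂ := fun z => Complex.exp (lam * z) with hE
  set h : ℂ → ℂ := hf ls with hh
  have hEd : Differentiable ℂ E := (differentiable_id.const_mul lam).cexp
  have hGd : Differentiable ℂ G := ((differentiable_id.const_mul al).cexp).mul (G0_diff σ)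
  obtain ⟨σ', hσ'⟩ := hD'c.isBounded.exists_norm_le
  have hhd : Differentiable ℂ h := ES_diff (fun n => hσ' _ (hls n)) (ajc_summable ls)
  have hhUB : UB h D' := hf_UB hD'c hls
  have hhPL : ∀ w, PL h D' w := hf_PL hD'c hD'ne hls hlsd
  have hGUB : UB G K := by
    intro ε hε
    obtain ⟨C, hC, hCb⟩ := G0_UB hσ ε hε
    refine ⟨C, hC, fun z => ?_⟩
    have h1 := hCb z
    rw [H_ball 0 hσ.le, zero_mul, Complex.zero_re, zero_add] at h1
    rw [hG, norm_mul, Complex.norm_exp, hHK]
    calc Real.exp (al * z).re * ‖G0 σ z‖ ≤ Real.exp (al * z).re * (C * Real.exp (σ * ‖z‖ + ε * ‖z‖)) := by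
          gcongr
      _ = C * (Real.exp (al * z).re * Real.exp (σ * ‖z‖ + ε * ‖z‖)) := by ring
      _ = _ := by rw [← Real.exp_add]; ring_nf
  have hEUBD : UB E D := UB_mono (UB_exp lam) (fun z => by rw [H_single]; exact le_H hD hlamD z)
  have hGUBD : UB G D := UB_mono hGUB (fun z => by
    have := hHKD z
    have : 0 ≤ σ * ‖z‖ := by positivity
    linarith)
  have hhUBD : UB h D := UB_mono hhUB (fun z => H_mono hD hD'ne hD'D z)
  set f : ℂ → ℂ := fun z => (E z + G z) + h z with hf'
  have hEGd : Differentiable ℂ (fun z => E z + G z) := hEd.add hGd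
  have hEGUB : UB (fun z => E z + G z) D := UB_add hEUBD hGUBD
  have hfd : Differentiable ℂ f := hEGd.add hhd
  have hfUB : UB f D := UB_add hEGUB hhUBD
  have hfPL : ∀ w, PL f D w := by
    have hcases : ∀ w, w ∉ Bad D' lam → PL f D w := by
      intro w hw
      have hne' : H D' w ≠ (lam * w).re := hw
      have hw0 : w ≠ 0 := by
        rintro rfl
        apply hne'
        rw [H_zero hD'c hD'ne, mul_zero, Complex.zero_re]
      have hwn : 0 < ‖w‖ := norm_pos_iff.mpr hw0
      have hGneg : Neg G D w := by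
        apply Neg_of_UB hD hne hKc hKne hGUB
        have := hHKD w
        have : 0 < σ * ‖w‖ := by positivity
        linarith
      rcases lt_or_gt_of_ne hne' with hlt | hgt
      · -- the exponential dominates
        have h1 : H D w ≤ H {lam} w := by
          rw [H_single]
          have := hmax w
          rwa [max_eq_right hlt.le] at this
        have h2 : PL E D w := PL_change hD hne isCompact_singleton (Set.singleton_nonempty lam)
          (PL_exp lam w) h1
        have h3 : Neg h D w := by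
          apply Neg_of_UB hD hne hD'c hD'ne hhUB
          exact hlt.trans_le (le_H hD hlamD w)
        exact PL_add (PL_add h2 hGneg) h3
      · have h1 : H D w ≤ H D' w := by
          have := hmax w
          rwa [max_eq_left hgt.le] at this
        have h2 : PL h D w := PL_change hD hne hD'c hD'ne (hhPL w) h1
        have h3 : Neg E D w := by
          apply Neg_of_UB hD hne isCompact_singleton (Set.singleton_nonempty lam) (UB_exp lam)
          rw [H_single]
          exact hgt.trans_le (H_mono hD hD'ne hD'D w)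
        have h4 := PL_add h2 (Neg_add h3 hGneg)
        have e : (fun z => h z + (E z + G z)) = f := by funext z; rw [hf']; ring
        rwa [e] at h4
    have hcl := PL_closed f D
    have hdense : Dense (Bad D' lam)ᶜ := by
      rw [← interior_eq_empty_iff_dense_compl, Set.eq_empty_iff_forall_notMem]
      intro z hz
      exact hlamD' (Bad_int_mem hD'c hD'ne hz)
    intro w
    have h1 : closure (Bad D' lam)ᶜ ⊆ {u : ℂ | PL f D u} := closure_minimal (fun w hw => hcases w hw) hcl
    exact h1 (hdense w)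
  obtain ⟨hcrg, hdiag⟩ := crg_diag hfd hD hconv hne hfUB hfPL
  -- the image
  obtain ⟨ρD, hρD⟩ := hD.isBounded.exists_norm_le
  have hρD0 : 0 ≤ ρD := (norm_nonneg _).trans (hρD _ hlamD)
  have hdec : ∀ ρ : ℝ, 0 < ρ → Dec (coef φ) ρ := fun ρ hρ => Dec_coef hρ hφ.diffContOnCl
  set φa : ℂ → ℂ := fun ζ => φ (al + ζ) with hφa
  have hφad : Differentiable ℂ φa := hφ.comp (differentiable_id.const_add al)
  set F : ℂ → ℂ := T (coef φa) (G0 σ) with hF
  set Th : ℂ → ℂ := T (coef φ) h with hTh
  have himg : T (coef φ) f = fun z => Complex.exp (al * z) * F z + Th z := by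
    funext z
    have h1 := T_add hEGd hhd hD hne hEGUB hhUBD hρD (lt_add_one ρD) (hdec _ (by linarith)) z
    have h2 := T_add hEd hGd hD hne hEUBD hGUBD hρD (lt_add_one ρD) (hdec _ (by linarith)) z
    have h3 : T (coef φ) E z = 0 := by rw [hE, T_exp hφ, hlam0, zero_mul]
    have h4 : T (coef φ) G z = Complex.exp (al * z) * F z :=
      T_exp_mul hφ (G0_diff σ) (isCompact_closedBall 0 σ) ⟨0, mem_closedBall_self hσ.le⟩ (G0_UB hσ) al z
    show T (coef φ) (fun z => (E z + G z) + h z) z = _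
    rw [h1, h2, h3, h4, zero_add]
  set B : Set ℂ := closedBall 0 σ with hB
  have hBc : IsCompact B := isCompact_closedBall _ _
  have hBne : B.Nonempty := ⟨0, mem_closedBall_self hσ.le⟩
  have hBσ : ∀ ζ ∈ B, ‖ζ‖ ≤ σ := fun ζ hζ => by rwa [hB, mem_closedBall_zero_iff] at hζ
  have hσρ : σ < 2 * σ := by linarith
  have hHB : ∀ w, H B w = σ * ‖w‖ := fun w => by
    rw [hB, H_ball 0 hσ.le, zero_mul, Complex.zero_re, zero_add]
  have hφa0 : ∀ z, ‖z‖ ≤ 2 * σ → φa z ≠ 0 := by
    intro z hz
    have h1 : al + z ∈ closedBall al (2 * σ) := by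
      rw [mem_closedBall, dist_eq_norm, add_sub_cancel_left]; exact hz
    exact (hballU h1).2
  have hG0d := G0_diff σ
  have hG0U := G0_UB hσ
  have hFd : Differentiable ℂ F := T_diff hG0d hBc hBne hG0U hBσ hσρ
    (Dec_coef (by positivity) hφad.diffContOnCl)
  have hFU : UB F B := T_UB hG0d hBc hBne hG0U hBσ hσρ (Dec_coef (by positivity) hφad.diffContOnCl)
  have hThU : UB Th D' := by
    have hne'' := hD'ne
    exact T_UB hhd hD'c hD'ne hhUB hσ' (lt_add_one σ') (Dec_coef (by
      have := (norm_nonneg _).trans (hσ' _ hD'ne.some_mem)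
      linarith) hφ.diffContOnCl)
  have hThneg : Neg Th K u := by
    apply Neg_of_UB hKc hKne hD'c hD'ne hThU
    rw [hHK]
    have : 0 < σ * ‖u‖ := by positivity
    linarith
  -- Step 1: the image is not small in the direction `u`
  have hs0 : 0 < σ * Real.exp 1 := by have := Real.exp_pos 1; positivity
  have step1 : ¬ Neg (fun z => Complex.exp (al * z) * F z + Th z) K u := by
    intro hneg
    have h1 := Neg_add hneg (Neg_neg hThneg)
    have h2 : Neg (fun z => Complex.exp (al * z) * F z) K u := by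
      have e : (fun z => (Complex.exp (al * z) * F z + Th z) + -Th z) =
        fun z => Complex.exp (al * z) * F z := by funext z; ring
      rwa [e] at h1
    obtain ⟨κ, hκ, δ₁, hδ₁, R₁, hR₁⟩ := h2
    obtain ⟨d, hd, hinv⟩ := T_inv hG0d hBc hBne hG0U hBσ hσρ hφad hφa0
    obtain ⟨δ', hδ', η', hη', R₂, hR₂⟩ := T_local hFd hBc hBne hFU hBσ hσρ hd hδ₁ hκ u
    have hpk := lac_peak (ε := η' / (2 * (σ * Real.exp 1) * ‖u‖)) (by positivity)
    have hlim : Tendsto (fun m => Real.exp 1 * (NN (m + 1) : ℝ) / (σ * Real.exp 1 * ‖u‖)) atTop atTop :=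
      ((NN_tendsto.comp (tendsto_add_atTop_nat 1)).const_mul_atTop (Real.exp_pos 1)).atTop_div_const
        (by positivity)
    obtain ⟨m, hm1, hm2⟩ := (hpk.and (hlim.eventually_ge_atTop (max (max R₁ R₂) 1))).exists
    set r : ℝ := Real.exp 1 * (NN (m + 1) : ℝ) / (σ * Real.exp 1 * ‖u‖) with hr
    have hr1 : R₁ ≤ r := ((le_max_left _ _).trans (le_max_left _ _)).trans hm2
    have hr2 : R₂ ≤ r := ((le_max_right _ _).trans (le_max_left _ _)).trans hm2
    have hr3 : 1 ≤ r := (le_max_right _ _).trans hm2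
    have hr0 : 0 < r := by linarith
    have h3 := hR₂ r hr2 (fun w hw => by
      have h4 := hR₁ r hr1 w hw
      rw [norm_mul, Complex.norm_exp, hHK] at h4
      have h5 : Real.exp ((al * w).re + σ * ‖w‖ - κ * r) =
        Real.exp (al * w).re * Real.exp (σ * ‖w‖ - κ * r) := by rw [← Real.exp_add]; ring_nf
      rw [h5] at h4
      rw [hHB]
      exact le_of_mul_le_mul_left h4 (Real.exp_pos _)) (r * u) (by
        rw [sub_self, norm_zero]; positivity)
    rw [hinv, hHB] at h3
    have hnr : ‖(r : ℂ) * u‖ = r * ‖u‖ := by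
      rw [norm_mul, Complex.norm_real, Real.norm_of_nonneg hr0.le]
    have h6 := hm1 (((σ * Real.exp 1 : ℝ) : ℂ) * (r * u)) (by
      rw [G0_arg hσ, hnr, hr]
      field_simp)
    rw [G0_arg hσ, hnr] at h6
    have h7 : Real.exp (σ * Real.exp 1 * (r * ‖u‖) / Real.exp 1 -
        η' / (2 * (σ * Real.exp 1) * ‖u‖) * (σ * Real.exp 1 * (r * ‖u‖))) ≤
        Real.exp (σ * ‖(r : ℂ) * u‖ - η' * r) := h6.trans h3
    rw [hnr] at h7
    have h8 := Real.exp_le_exp.mp h7
    have e1 : σ * Real.exp 1 * (r * ‖u‖) / Real.exp 1 = σ * (r * ‖u‖) := by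
      have := (Real.exp_pos 1).ne'
      field_simp
    have e2 : η' / (2 * (σ * Real.exp 1) * ‖u‖) * (σ * Real.exp 1 * (r * ‖u‖)) = η' / 2 * r := by
      have := (Real.exp_pos 1).ne'
      field_simp
    rw [e1, e2] at h8
    nlinarith
  refine ⟨f, hcrg, hdiag, ?_, ?_⟩
  · -- the image is not zero
    by_contra hcon
    push Not at hcon
    apply step1
    rw [himg] at hcon
    refine ⟨1, one_pos, 1, one_pos, 0, fun r _ z _ => ?_⟩
    show ‖Complex.exp (al * z) * F z + Th z‖ ≤ _
    have := hcon z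
    simp only at this
    rw [this, norm_zero]
    exact (Real.exp_pos _).le
  · intro hcrg2
    rw [himg] at hcrg2
    obtain ⟨hgd, hSc, hSx, hSne, hgU, hgP⟩ := crg_data hcrg2
    set g : ℂ → ℂ := fun z => Complex.exp (al * z) * F z + Th z with hg
    set S : Set ℂ := conjDiagram g with hS
    -- the indicator of the image in the direction `u`
    have hSK : H K u ≤ H S u := by
      by_contra hcon
      push Not at hcon
      exact step1 (Neg_of_UB hKc hKne hSc hSne hgU hcon)
    -- gap radii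
    obtain ⟨δ', hδ', η', hη', R₂, hR₂⟩ := T_local hG0d hBc hBne hG0U hBσ hσρ
      (Dec_coef (by positivity : (0 : ℝ) < 2 * σ) hφad.diffContOnCl) (δ := ‖u‖ / 2)
      (η := σ * ‖u‖ / 4) (by positivity) (by positivity) u
    obtain ⟨κ, hκ, δ₂, hδ₂, R₃, hR₃⟩ := hThneg
    set κ' := min η' κ with hκ'
    have hκ'0 : 0 < κ' := lt_min hη' hκ
    obtain ⟨τK, hτK⟩ := hKc.isBounded.exists_norm_le
    obtain ⟨τS, hτS⟩ := hSc.isBounded.exists_norm_le
    have hτK0 : 0 ≤ τK := (norm_nonneg _).trans (hτK _ hKne.some_mem)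
    have hτS0 : 0 ≤ τS := (norm_nonneg _).trans (hτS _ hSne.some_mem)
    set δ₃ := min (min δ' δ₂) (κ' / (4 * (τK + τS + 1))) with hδ₃
    have hδ₃0 : 0 < δ₃ := lt_min (lt_min hδ' hδ₂) (by positivity)
    obtain ⟨R₄, hR₄⟩ := hgP u δ₃ hδ₃0 (κ' / 4) (by positivity)
    have hgap := lac_gap (ε := 1 / (4 * Real.exp 1)) (by have := Real.exp_pos 1; positivity)
    have hlim : Tendsto (fun m => (NN m : ℝ) ^ 3 / (σ * Real.exp 1 * ‖u‖)) atTop atTop :=
      ((tendsto_pow_atTop (by norm_num : (3 : ℕ) ≠ 0)).comp NN_tendsto).atTop_div_const (by positivity)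
    obtain ⟨m, hm1, hm2⟩ := (hgap.and (hlim.eventually_ge_atTop
      (max (max R₂ R₃) (max R₄ (max 1 (4 / κ')))))).exists
    set r : ℝ := (NN m : ℝ) ^ 3 / (σ * Real.exp 1 * ‖u‖) with hr
    have hr2 : R₂ ≤ r := ((le_max_left _ _).trans (le_max_left _ _)).trans hm2
    have hr3 : R₃ ≤ r := ((le_max_right _ _).trans (le_max_left _ _)).trans hm2
    have hr4 : R₄ ≤ r := ((le_max_left _ _).trans (le_max_right _ _)).trans hm2
    have hr5 : 1 ≤ r := (le_max_left _ _).trans ((le_max_right _ _).trans ((le_max_right _ _).trans hm2))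
    have hr6 : 4 / κ' ≤ r :=
      (le_max_right _ _).trans ((le_max_right _ _).trans ((le_max_right _ _).trans hm2))
    have hr0 : 0 < r := by linarith
    rw [div_le_iff₀ hκ'0] at hr6
    have hrN : σ * Real.exp 1 * (r * ‖u‖) = (NN m : ℝ) ^ 3 := by
      rw [hr]
      have := (Real.exp_pos 1).ne'
      field_simp
    have hnr : ‖(r : ℂ) * u‖ = r * ‖u‖ := by
      rw [norm_mul, Complex.norm_real, Real.norm_of_nonneg hr0.le]
    have hsmall := hR₂ r hr2 (fun w hw => by
      have hw1 : ‖w‖ ≤ 3 / 2 * (r * ‖u‖) := by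
        have := ball_norm hr0.le hw
        linarith
      have hw2 : r * ‖u‖ / 2 ≤ ‖w‖ := by
        have h1 : ‖(r : ℂ) * u‖ ≤ ‖(r : ℂ) * u - w‖ + ‖w‖ := by
          have := norm_add_le ((r : ℂ) * u - w) w
          rwa [sub_add_cancel] at this
        rw [hnr, norm_sub_rev] at h1
        linarith
      have h2 := hm1 (((σ * Real.exp 1 : ℝ) : ℂ) * w) (by
        rw [G0_arg hσ, ← hrN]
        nlinarith) (by
        rw [G0_arg hσ, ← hrN]
        nlinarith)
      refine h2.trans ?_
      rw [G0_arg hσ, hHB]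
      apply Real.exp_le_exp.mpr
      have e1 : 1 / (4 * Real.exp 1) * (σ * Real.exp 1 * ‖w‖) = σ * ‖w‖ / 4 := by
        have := (Real.exp_pos 1).ne'
        field_simp
      rw [e1]
      nlinarith)
    obtain ⟨w, hw1, hw2⟩ := hR₄ r hr4
    have hw3 : ‖w - r * u‖ ≤ δ' * r := hw1.trans (mul_le_mul_of_nonneg_right
      ((min_le_left _ _).trans (min_le_left _ _)) hr0.le)
    have hw4 : ‖w - r * u‖ ≤ δ₂ * r := hw1.trans (mul_le_mul_of_nonneg_right
      ((min_le_left _ _).trans (min_le_right _ _)) hr0.le)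
    have h3 := hsmall w hw3
    have h4 := hR₃ r hr3 w hw4
    have h5 : ‖Complex.exp (al * w) * F w‖ ≤ Real.exp (H K w - κ' * r) := by
      rw [norm_mul, Complex.norm_exp, hHK]
      rw [hHB] at h3
      calc Real.exp (al * w).re * ‖F w‖ ≤ Real.exp (al * w).re * Real.exp (σ * ‖w‖ - η' * r) := by
            gcongr
        _ = Real.exp ((al * w).re + (σ * ‖w‖ - η' * r)) := by rw [← Real.exp_add]
        _ ≤ _ := by
          apply Real.exp_le_exp.mpr
          have := mul_le_mul_of_nonneg_right (min_le_left η' κ) hr0.le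
          linarith
    have h6 : ‖Th w‖ ≤ Real.exp (H K w - κ' * r) := by
      refine h4.trans (Real.exp_le_exp.mpr ?_)
      have := mul_le_mul_of_nonneg_right (min_le_right η' κ) hr0.le
      linarith
    have h7 : ‖g w‖ ≤ 2 * Real.exp (H K w - κ' * r) := by
      calc ‖g w‖ ≤ ‖Complex.exp (al * w) * F w‖ + ‖Th w‖ := norm_add_le _ _
        _ ≤ _ := by linarith
    have h8 : H K w ≤ H S w + κ' / 4 * r := by
      have e1 := H_lip hKc hKne hτK w (r * u)
      have e2 := H_lip hSc hSne hτS (r * u) w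
      rw [H_smul hKc hKne u hr0.le] at e1
      rw [H_smul hSc hSne u hr0.le] at e2
      have e3 : ‖(r : ℂ) * u - w‖ ≤ δ₃ * r := by rw [norm_sub_rev]; exact hw1
      have e4 : τS * ‖(r : ℂ) * u - w‖ ≤ τS * (δ₃ * r) := mul_le_mul_of_nonneg_left e3 hτS0
      have e5 : τK * ‖w - (r : ℂ) * u‖ ≤ τK * (δ₃ * r) := mul_le_mul_of_nonneg_left hw1 hτK0
      have e6 : (τK + τS) * δ₃ ≤ κ' / 4 := by
        calc (τK + τS) * δ₃ ≤ (τK + τS) * (κ' / (4 * (τK + τS + 1))) := by
              apply mul_le_mul_of_nonneg_left (min_le_right _ _) (by linarith)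
          _ = (κ' / 4) * ((τK + τS) / (τK + τS + 1)) := by field_simp
          _ ≤ κ' / 4 * 1 := by
              apply mul_le_mul_of_nonneg_left _ (by positivity)
              rw [div_le_one (by positivity)]; linarith
          _ = κ' / 4 := by ring
      have e7 : (τK + τS) * (δ₃ * r) ≤ κ' / 4 * r := by nlinarith
      have e8 : r * H K u ≤ r * H S u := mul_le_mul_of_nonneg_left hSK hr0.le
      linarith
    have h9 : Real.exp (H S w - κ' / 4 * r) ≤ 2 * Real.exp (H S w - 3 * κ' / 4 * r) := by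
      refine hw2.trans (h7.trans ?_)
      have : Real.exp (H K w - κ' * r) ≤ Real.exp (H S w - 3 * κ' / 4 * r) := by
        apply Real.exp_le_exp.mpr; linarith
      linarith
    have h10 : 2 < Real.exp (κ' / 2 * r) := by
      have := Real.add_one_le_exp (κ' / 2 * r)
      nlinarith
    have h11 : 2 * Real.exp (H S w - 3 * κ' / 4 * r) < Real.exp (H S w - κ' / 4 * r) := by
      calc 2 * Real.exp (H S w - 3 * κ' / 4 * r) <
          Real.exp (κ' / 2 * r) * Real.exp (H S w - 3 * κ' / 4 * r) := by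
            apply mul_lt_mul_of_pos_right h10 (Real.exp_pos _)
        _ = _ := by rw [← Real.exp_add]; ring_nf
    linarith

end Pool.Agent.KS6_90.CRG
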