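import Pool.Agent.KS6_90.CRG.Tools

set_option autoImplicit false

open Filter Topology Metric

namespace Pool.Agent.KS6_90.CRG

open Pool.Agent.Helper960.Crg

/-- two real functionals vanishing on the same nonzero vector are proportional -/
lemma par {v w1 w2 : ℂ} (hv : v ≠ 0) (h1 : (v * w1).re = 0) (h2 : (v * w2).re = 0)
    (hw1 : w1 ≠ 0) : ∃ κ : ℝ, w2 = κ * w1 := by
  have e1 : v * w1 = ((v * w1).im : ℂ) * Complex.I := by
    apply Complex.ext <;> simp [h1]
  have e2 : v * w2 = ((v * w2).im : ℂ) * Complex.I := by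
    apply Complex.ext <;> simp [h2]
  have hi : (v * w1).im ≠ 0 := by
    intro h0
    rw [h0] at e1
    simp at e1
    rcases e1 with e1 | e1
    · exact hv e1
    · exact hw1 e1
  refine ⟨(v * w2).im / (v * w1).im, ?_⟩
  apply mul_left_cancel₀ hv
  generalize (v * w1).im = p1 at *
  generalize (v * w2).im = p2 at *
  have hi' : (p1 : ℂ) ≠ 0 := by exact_mod_cast hi
  have : v * (((p2 / p1 : ℝ) : ℂ) * w1) = ((p2 / p1 : ℝ) : ℂ) * (v * w1) := by ring
  rw [this, e1, e2]
  push_cast
  field_simp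

/-- the supporting functional along a boundary segment -/
lemma support_seg {D : Set ℂ} (hD : IsCompact D) (hconv : Convex ℝ D) (hint : (interior D).Nonempty)
    {lam a : ℂ} (hseg : segment ℝ lam a ⊆ frontier D) :
    ∃ w : ℂ, w ≠ 0 ∧ (∀ ζ ∈ D, ((ζ - lam) * w).re ≤ 0) ∧ ((a - lam) * w).re = 0 := by
  have hfr : frontier D ⊆ D := hD.isClosed.frontier_subset
  set m : ℂ := (1 / 2 : ℝ) • lam + (1 / 2 : ℝ) • a with hm
  have hmseg : m ∈ segment ℝ lam a := ⟨1 / 2, 1 / 2, by norm_num, by norm_num, by norm_num, rfl⟩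
  have hmni : m ∉ interior D := (hseg hmseg).2
  obtain ⟨L, hL⟩ := geometric_hahn_banach_open_point hconv.interior isOpen_interior hmni
  set v : ℂ := (L 1 : ℂ) - (L Complex.I : ℂ) * Complex.I with hv
  have hLv : ∀ z : ℂ, L z = (z * v).re := by
    intro z
    have h1 : z = z.re • (1 : ℂ) + z.im • Complex.I := by
      simp [Complex.re_add_im]
    conv_lhs => rw [h1]
    rw [map_add, map_smul, map_smul, hv]
    simp only [smul_eq_mul, Complex.mul_re, Complex.sub_re, Complex.ofReal_re, Complex.sub_im,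
      Complex.ofReal_im, Complex.mul_im, Complex.I_re, Complex.I_im]
    ring
  have hle : ∀ ζ ∈ D, L ζ ≤ L m := by
    intro ζ hζ
    have h1 : D ⊆ closure (interior D) := by
      rw [hconv.closure_interior_eq_closure_of_nonempty_interior hint]
      exact subset_closure
    have h2 : closure (interior D) ⊆ {x | L x ≤ L m} :=
      closure_minimal (fun x hx => (hL x hx).le) (isClosed_le L.continuous continuous_const)
    exact h2 (h1 hζ)
  have hlam : lam ∈ D := hfr (hseg (left_mem_segment ℝ lam a))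
  have ha : a ∈ D := hfr (hseg (right_mem_segment ℝ lam a))
  have e1 : L m = 1 / 2 * L lam + 1 / 2 * L a := by
    rw [hm, map_add, map_smul, map_smul]; simp
  have h1 := hle lam hlam
  have h2 := hle a ha
  have h3 : L lam = L m := by linarith
  have h4 : L a = L m := by linarith
  refine ⟨v, ?_, ?_, ?_⟩
  · intro h0
    obtain ⟨x, hx⟩ := hint
    have := hL x hx
    rw [hLv, hLv, h0] at this
    simp at this
  · intro ζ hζ
    rw [sub_mul, Complex.sub_re, ← hLv, ← hLv, h3]
    linarith [hle ζ hζ]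
  · rw [sub_mul, Complex.sub_re, ← hLv, ← hLv, h3, h4]; ring

/-- cutting off a corner -/
theorem corner_cut {D : Set ℂ} (hD : IsCompact D) (hconv : Convex ℝ D)
    (hint : (interior D).Nonempty) {lam : ℂ} (hcor : IsCorner D lam) :
    ∃ (u : ℂ) (δ : ℝ) (D' : Set ℂ), 0 < δ ∧ lam ∈ D ∧ IsCompact D' ∧ Convex ℝ D' ∧ D'.Nonempty ∧
      D' ⊆ D ∧ (∀ ζ ∈ D, ((ζ - lam) * u).re ≤ 0) ∧ (∀ ζ ∈ D', ((ζ - lam) * u).re ≤ -δ) ∧
      ∀ w, H D w ≤ max (H D' w) ((lam * w).re) := by
  rcases hcor with ⟨a, b, hab, hbb, hsa, hsb, hcol⟩ | ⟨a, hal, hDseg⟩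
  swap
  · -- a segment has no interior
    exfalso
    obtain ⟨x, hx⟩ := hint
    obtain ⟨e, he, hb⟩ := Metric.isOpen_iff.mp isOpen_interior x hx
    set d : ℂ := a - lam with hd
    have hd0 : d ≠ 0 := sub_ne_zero.mpr hal
    set w : ℂ := Complex.I * (starRingEnd ℂ) d with hw
    have hline : ∀ ζ ∈ D, ((ζ - lam) * w).re = 0 := by
      intro ζ hζ
      rw [hDseg] at hζ
      obtain ⟨s, t, hs, ht, hst, rfl⟩ := hζ
      have e1 : s • lam + t • a - lam = (t : ℂ) * d := by
        rw [hd]
        have : (s : ℂ) = 1 - t := by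
          have : s = 1 - t := by linarith
          rw [this]; push_cast; ring
        simp only [Complex.real_smul]
        rw [this]; ring
      rw [e1, hw]
      have e2 : (t : ℂ) * d * (Complex.I * (starRingEnd ℂ) d) = (t * Complex.normSq d : ℝ) * Complex.I := by
        push_cast
        rw [← Complex.mul_conj]; ring
      rw [e2]; simp
    have hwn : 0 < ‖w‖ := by
      rw [hw, norm_mul, Complex.norm_I, one_mul, RCLike.norm_conj]
      exact norm_pos_iff.mpr hd0
    have hx1 := hline x (interior_subset hx)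
    have hx2 := hline (x + ((e / 2 / ‖w‖ : ℝ) : ℂ) * (starRingEnd ℂ) w) (by
      apply interior_subset
      apply hb
      rw [mem_ball, dist_eq_norm, add_sub_cancel_left, norm_mul, Complex.norm_real,
        RCLike.norm_conj, Real.norm_of_nonneg (by positivity)]
      have : e / 2 / ‖w‖ * ‖w‖ = e / 2 := by field_simp
      rw [this]; linarith)
    have e3 : (x + ((e / 2 / ‖w‖ : ℝ) : ℂ) * (starRingEnd ℂ) w - lam) * w =
        (x - lam) * w + ((e / 2 / ‖w‖ * Complex.normSq w : ℝ) : ℂ) := by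
      push_cast
      rw [← Complex.mul_conj]; ring
    rw [e3, Complex.add_re, hx1, Complex.ofReal_re, Complex.normSq_eq_norm_sq] at hx2
    have : 0 < e / 2 / ‖w‖ * ‖w‖ ^ 2 := by positivity
    linarith
  obtain ⟨wa, hwa0, hwa1, hwa2⟩ := support_seg hD hconv hint hsa
  obtain ⟨wb, hwb0, hwb1, hwb2⟩ := support_seg hD hconv hint hsb
  have hfr : frontier D ⊆ D := hD.isClosed.frontier_subset
  have hlam : lam ∈ D := hfr (hsa (left_mem_segment ℝ lam a))
  have haD : a ∈ D := hfr (hsa (right_mem_segment ℝ lam a))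
  have hbD : b ∈ D := hfr (hsb (right_mem_segment ℝ lam b))
  have hncol : ¬ ∃ w : ℂ, w ≠ 0 ∧ ((a - lam) * w).re = 0 ∧ ((b - lam) * w).re = 0 := by
    rintro ⟨w, hw0, h1, h2⟩
    apply hcol
    obtain ⟨κ, hκ⟩ := par (v := w) (w1 := a - lam) (w2 := b - lam) hw0 (by rw [mul_comm]; exact h1)
      (by rw [mul_comm]; exact h2) (sub_ne_zero.mpr hab)
    rw [collinear_iff_of_mem (p₀ := lam) (by simp)]
    refine ⟨a - lam, ?_⟩
    intro p hp
    simp only [Set.mem_insert_iff, Set.mem_singleton_iff] at hp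
    rcases hp with rfl | rfl | rfl
    · exact ⟨0, by simp⟩
    · exact ⟨1, by simp⟩
    · refine ⟨κ, ?_⟩
      rw [vadd_eq_add, Complex.real_smul, ← hκ]; ring
  have hya : ((a - lam) * wb).re < 0 := by
    refine lt_of_le_of_ne (hwb1 a haD) (fun h0 => hncol ⟨wb, hwb0, h0, hwb2⟩)
  have hxb : ((b - lam) * wa).re < 0 := by
    refine lt_of_le_of_ne (hwa1 b hbD) (fun h0 => hncol ⟨wa, hwa0, hwa2, h0⟩)
  have hinj : ∀ v : ℂ, (v * wa).re = 0 → (v * wb).re = 0 → v = 0 := by
    intro v h1 h2
    by_contra hv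
    obtain ⟨κ, hκ⟩ := par hv h1 h2 hwa0
    rw [hκ] at hya
    have : (a - lam) * (κ * wa) = (κ : ℂ) * ((a - lam) * wa) := by ring
    rw [this, Complex.re_ofReal_mul, hwa2, mul_zero] at hya
    exact lt_irrefl _ hya
  set δ : ℝ := min (-((a - lam) * wb).re) (-((b - lam) * wa).re) with hδ
  have hδ0 : 0 < δ := lt_min (by linarith) (by linarith)
  set D' : Set ℂ := D ∩ {ζ | ((ζ - lam) * (wa + wb)).re ≤ -δ} with hD'
  have hcl : IsClosed {ζ : ℂ | ((ζ - lam) * (wa + wb)).re ≤ -δ} :=
    isClosed_le (Complex.continuous_re.comp ((continuous_id.sub continuous_const).mul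
      continuous_const)) continuous_const
  have hcx : Convex ℝ {ζ : ℂ | ((ζ - lam) * (wa + wb)).re ≤ -δ} := by
    intro x hx y hy s t hs ht hst
    simp only [Set.mem_ofPred_eq] at hx hy ⊢
    have e1 : (s • x + t • y - lam) * (wa + wb) = (s : ℂ) * ((x - lam) * (wa + wb)) +
        (t : ℂ) * ((y - lam) * (wa + wb)) := by
      have : (s : ℂ) = 1 - t := by
        have : s = 1 - t := by linarith
        rw [this]; push_cast; ring
      simp only [Complex.real_smul]
      rw [this]; ring
    rw [e1, Complex.add_re, Complex.re_ofReal_mul, Complex.re_ofReal_mul]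
    nlinarith
  set ta : ℝ := δ / -((a - lam) * wb).re with hta
  set tb : ℝ := δ / -((b - lam) * wa).re with htb
  have hta0 : 0 < ta := div_pos hδ0 (by linarith)
  have htb0 : 0 < tb := div_pos hδ0 (by linarith)
  have hta1 : ta ≤ 1 := by
    rw [hta, div_le_one (by linarith)]; exact min_le_left _ _
  have htb1 : tb ≤ 1 := by
    rw [htb, div_le_one (by linarith)]; exact min_le_right _ _
  set pa : ℂ := lam + (ta : ℂ) * (a - lam) with hpa
  set pb : ℂ := lam + (tb : ℂ) * (b - lam) with hpb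
  have hpaD : pa ∈ D := by
    have := hconv hlam haD (a := 1 - ta) (b := ta) (by linarith) hta0.le (by ring)
    have e : (1 - ta) • lam + ta • a = pa := by
      rw [hpa]; simp only [Complex.real_smul]; push_cast; ring
    rwa [e] at this
  have hpbD : pb ∈ D := by
    have := hconv hlam hbD (a := 1 - tb) (b := tb) (by linarith) htb0.le (by ring)
    have e : (1 - tb) • lam + tb • b = pb := by
      rw [hpb]; simp only [Complex.real_smul]; push_cast; ring
    rwa [e] at this
  have hpa1 : ((pa - lam) * wa).re = 0 := by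
    have : (pa - lam) * wa = (ta : ℂ) * ((a - lam) * wa) := by rw [hpa]; ring
    rw [this, Complex.re_ofReal_mul, hwa2, mul_zero]
  have hpa2 : ((pa - lam) * wb).re = -δ := by
    have : (pa - lam) * wb = (ta : ℂ) * ((a - lam) * wb) := by rw [hpa]; ring
    rw [this, Complex.re_ofReal_mul, hta]
    have h0 : ((a - lam) * wb).re ≠ 0 := hya.ne
    field_simp
  have hpb1 : ((pb - lam) * wa).re = -δ := by
    have : (pb - lam) * wa = (tb : ℂ) * ((b - lam) * wa) := by rw [hpb]; ring
    rw [this, Complex.re_ofReal_mul, htb]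
    have h0 : ((b - lam) * wa).re ≠ 0 := hxb.ne
    field_simp
  have hpb2 : ((pb - lam) * wb).re = 0 := by
    have : (pb - lam) * wb = (tb : ℂ) * ((b - lam) * wb) := by rw [hpb]; ring
    rw [this, Complex.re_ofReal_mul, hwb2, mul_zero]
  have hpaD' : pa ∈ D' := by
    refine ⟨hpaD, ?_⟩
    show ((pa - lam) * (wa + wb)).re ≤ -δ
    rw [mul_add, Complex.add_re, hpa1, hpa2]; linarith
  have hpbD' : pb ∈ D' := by
    refine ⟨hpbD, ?_⟩
    show ((pb - lam) * (wa + wb)).re ≤ -δ
    rw [mul_add, Complex.add_re, hpb1, hpb2]; linarith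
  have hD'c : IsCompact D' := hD.inter_right hcl
  refine ⟨wa + wb, δ, D', hδ0, hlam, hD'c, hconv.inter hcx, ⟨pa, hpaD'⟩, Set.inter_subset_left, ?_,
    fun ζ hζ => hζ.2, ?_⟩
  · intro ζ hζ
    rw [mul_add, Complex.add_re]
    linarith [hwa1 ζ hζ, hwb1 ζ hζ]
  · intro w
    apply H_le ⟨lam, hlam⟩
    intro ζ hζ
    by_cases hζ' : ((ζ - lam) * (wa + wb)).re ≤ -δ
    · exact (le_H hD'c ⟨hζ, hζ'⟩ w).trans (le_max_left _ _)
    · push Not at hζ'
      rw [mul_add, Complex.add_re] at hζ'
      set x := ((ζ - lam) * wa).re with hx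
      set y := ((ζ - lam) * wb).re with hy
      have hx0 : x ≤ 0 := hwa1 ζ hζ
      have hy0 : y ≤ 0 := hwb1 ζ hζ
      set s := -y / δ with hs
      set t := -x / δ with ht
      have hs0 : 0 ≤ s := div_nonneg (by linarith) hδ0.le
      have ht0 : 0 ≤ t := div_nonneg (by linarith) hδ0.le
      have hst : s + t ≤ 1 := by
        rw [hs, ht, ← add_div, div_le_one hδ0]; linarith
      have hrep : ζ - lam - ((s : ℂ) * (pa - lam) + (t : ℂ) * (pb - lam)) = 0 := by
        apply hinj
        · have e : (ζ - lam - ((s : ℂ) * (pa - lam) + (t : ℂ) * (pb - lam))) * wa =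
            (ζ - lam) * wa - (s : ℂ) * ((pa - lam) * wa) - (t : ℂ) * ((pb - lam) * wa) := by ring
          rw [e, Complex.sub_re, Complex.sub_re, Complex.re_ofReal_mul, Complex.re_ofReal_mul, hpa1,
            hpb1, ← hx, ht]
          field_simp
          ring
        · have e : (ζ - lam - ((s : ℂ) * (pa - lam) + (t : ℂ) * (pb - lam))) * wb =
            (ζ - lam) * wb - (s : ℂ) * ((pa - lam) * wb) - (t : ℂ) * ((pb - lam) * wb) := by ring
          rw [e, Complex.sub_re, Complex.sub_re, Complex.re_ofReal_mul, Complex.re_ofReal_mul, hpa2,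
            hpb2, ← hy, hs]
          field_simp
          ring
      have e : ζ * w = ((1 - s - t : ℝ) : ℂ) * (lam * w) + (s : ℂ) * (pa * w) + (t : ℂ) * (pb * w) := by
        have h1 : ζ = lam + ((s : ℂ) * (pa - lam) + (t : ℂ) * (pb - lam)) := by
          linear_combination hrep
        rw [h1]; push_cast; ring
      rw [e, Complex.add_re, Complex.add_re, Complex.re_ofReal_mul, Complex.re_ofReal_mul,
        Complex.re_ofReal_mul]
      have h1 : (pa * w).re ≤ max (H D' w) ((lam * w).re) := (le_H hD'c hpaD' w).trans (le_max_left _ _)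
      have h2 : (pb * w).re ≤ max (H D' w) ((lam * w).re) := (le_H hD'c hpbD' w).trans (le_max_left _ _)
      have h3 : (lam * w).re ≤ max (H D' w) ((lam * w).re) := le_max_right _ _
      nlinarith

end Pool.Agent.KS6_90.CRG
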