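import Pool.Graph.R_seed8.Helper960.Crg.Final

/-!
# An entire function of completely regular growth with a prescribed conjugate diagram

`h(z) = ∑ a_n exp (λ_n z)` with `λ_n` dense in the convex set and `a_n` decreasing fast.
-/

set_option autoImplicit false

open Filter Topology Metric

namespace Pool.Agent.KS6_90.CRG

open Pool.Agent.Helper960.Crg

/-- exponential series -/
noncomputable def ES (lam b : ℕ → ℂ) (z : ℂ) : ℂ := ∑' n, b n * Complex.exp (lam n * z)

lemma exp_norm_le {σ : ℝ} {l z : ℂ} (hl : ‖l‖ ≤ σ) : ‖Complex.exp (l * z)‖ ≤ Real.exp (σ * ‖z‖) := by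
  rw [Complex.norm_exp]
  apply Real.exp_le_exp.mpr
  calc (l * z).re ≤ ‖l * z‖ := Complex.re_le_norm _
    _ = ‖l‖ * ‖z‖ := norm_mul _ _
    _ ≤ σ * ‖z‖ := mul_le_mul_of_nonneg_right hl (norm_nonneg _)

lemma ES_summable {σ : ℝ} {lam b : ℕ → ℂ} (hl : ∀ n, ‖lam n‖ ≤ σ) (hb : Summable fun n => ‖b n‖)
    (z : ℂ) : Summable fun n => b n * Complex.exp (lam n * z) := by
  refine Summable.of_norm_bounded (g := fun n => ‖b n‖ * Real.exp (σ * ‖z‖)) (hb.mul_right _) ?_
  intro n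
  rw [norm_mul]
  exact mul_le_mul_of_nonneg_left (exp_norm_le (hl n)) (norm_nonneg _)

lemma ES_hasDeriv {σ : ℝ} {lam b : ℕ → ℂ} (hl : ∀ n, ‖lam n‖ ≤ σ) (hb : Summable fun n => ‖b n‖)
    (z : ℂ) : HasDerivAt (ES lam b) (ES lam (fun n => b n * lam n) z) z := by
  have hσ : 0 ≤ σ := (norm_nonneg _).trans (hl 0)
  have h := hasDerivAt_tsum_of_isPreconnected (t := ball (0 : ℂ) (‖z‖ + 1))
    (u := fun n => ‖b n‖ * σ * Real.exp (σ * (‖z‖ + 1)))
    (g := fun n z => b n * Complex.exp (lam n * z))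
    (g' := fun n z => b n * lam n * Complex.exp (lam n * z)) (y₀ := z) (y := z)
    ((hb.mul_right _).mul_right _) isOpen_ball (convex_ball 0 _).isPreconnected ?_ ?_ ?_ ?_ ?_
  · exact h
  · intro n y _
    have h1 : HasDerivAt (fun z => Complex.exp (lam n * z)) (Complex.exp (lam n * y) * (lam n * 1)) y :=
      ((hasDerivAt_id y).const_mul (lam n)).cexp
    exact (h1.const_mul (b n)).congr_deriv (by ring)
  · intro n y hy
    rw [mem_ball_zero_iff] at hy
    rw [norm_mul, norm_mul]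
    have h1 : ‖Complex.exp (lam n * y)‖ ≤ Real.exp (σ * (‖z‖ + 1)) :=
      (exp_norm_le (hl n)).trans (Real.exp_le_exp.mpr (mul_le_mul_of_nonneg_left hy.le hσ))
    have h2 : ‖b n‖ * ‖lam n‖ ≤ ‖b n‖ * σ := mul_le_mul_of_nonneg_left (hl n) (norm_nonneg _)
    exact mul_le_mul h2 h1 (norm_nonneg _) (by positivity)
  · rw [mem_ball_zero_iff]; linarith
  · exact ES_summable hl hb z
  · rw [mem_ball_zero_iff]; linarith

lemma ES_diff {σ : ℝ} {lam b : ℕ → ℂ} (hl : ∀ n, ‖lam n‖ ≤ σ) (hb : Summable fun n => ‖b n‖) :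
    Differentiable ℂ (ES lam b) := fun z => (ES_hasDeriv hl hb z).differentiableAt

/-- the operator `F ↦ F' - a F` -/
noncomputable def Lop (a : ℂ) (F : ℂ → ℂ) (z : ℂ) : ℂ := deriv F z - a * F z

/-- iterated -/
noncomputable def LL (l : List ℂ) (F : ℂ → ℂ) : ℂ → ℂ := l.foldr Lop F

lemma LL_nil (F : ℂ → ℂ) : LL [] F = F := rfl

lemma LL_cons (a : ℂ) (l : List ℂ) (F : ℂ → ℂ) : LL (a :: l) F = Lop a (LL l F) := rfl

lemma Lop_diff {F : ℂ → ℂ} (hF : Differentiable ℂ F) (a : ℂ) : Differentiable ℂ (Lop a F) := by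
  have h1 : Differentiable ℂ (deriv F) := by
    have := iteratedDeriv_diff hF 1
    rwa [iteratedDeriv_one] at this
  exact h1.sub (hF.const_mul a)

lemma LL_diff {F : ℂ → ℂ} (hF : Differentiable ℂ F) (l : List ℂ) : Differentiable ℂ (LL l F) := by
  induction l with
  | nil => exact hF
  | cons a l ih => exact Lop_diff ih a

lemma LL_bound {F : ℂ → ℂ} (hF : Differentiable ℂ F) {σ s S ρ : ℝ} (hs : 0 < s) (hσ : 0 ≤ σ)
    (z0 : ℂ) (hS : ∀ w, ‖w - z0‖ ≤ ρ → ‖F w‖ ≤ S) (l : List ℂ) (hl : ∀ a ∈ l, ‖a‖ ≤ σ) :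
    ∀ w, ‖w - z0‖ ≤ ρ - l.length * s → ‖LL l F w‖ ≤ (1 / s + σ) ^ l.length * S := by
  induction l with
  | nil =>
    intro w hw
    simp only [List.length_nil, Nat.cast_zero, zero_mul, sub_zero] at hw
    simpa [LL_nil] using hS w hw
  | cons a l ih =>
    intro w hw
    have ih' := ih (fun b hb => hl b (List.mem_cons_of_mem _ hb))
    rw [List.length_cons] at hw ⊢
    push_cast at hw
    have hB : ∀ v, ‖v - w‖ ≤ s → ‖LL l F v‖ ≤ (1 / s + σ) ^ l.length * S := by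
      intro v hv
      apply ih'
      calc ‖v - z0‖ = ‖(v - w) + (w - z0)‖ := by ring_nf
        _ ≤ ‖v - w‖ + ‖w - z0‖ := norm_add_le _ _
        _ ≤ s + (ρ - (l.length + 1) * s) := add_le_add hv hw
        _ = _ := by ring
    have h1 : ‖deriv (LL l F) w‖ ≤ (1 / s + σ) ^ l.length * S / s := by
      apply Complex.norm_deriv_le_of_forall_mem_sphere_norm_le hs (LL_diff hF l).diffContOnCl
      intro v hv
      rw [mem_sphere, dist_eq_norm] at hv
      exact hB v hv.le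
    have h2 : ‖LL l F w‖ ≤ (1 / s + σ) ^ l.length * S := hB w (by simp [hs.le])
    have h3 : ‖a‖ ≤ σ := hl a (by simp)
    have h4 : 0 ≤ (1 / s + σ) ^ l.length * S := (norm_nonneg _).trans h2
    rw [LL_cons]
    unfold Lop
    calc ‖deriv (LL l F) w - a * LL l F w‖ ≤ ‖deriv (LL l F) w‖ + ‖a * LL l F w‖ := norm_sub_le _ _
      _ ≤ (1 / s + σ) ^ l.length * S / s + σ * ((1 / s + σ) ^ l.length * S) := by
        rw [norm_mul]
        gcongr
      _ = (1 / s + σ) ^ (l.length + 1) * S := by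
        rw [pow_succ]; ring

lemma LL_ES {σ : ℝ} {lam b : ℕ → ℂ} (hl : ∀ n, ‖lam n‖ ≤ σ) (hb : Summable fun n => ‖b n‖)
    (l : List ℂ) : LL l (ES lam b) = ES lam (fun n => b n * lprod l (lam n)) ∧
      Summable fun n => ‖b n * lprod l (lam n)‖ := by
  induction l with
  | nil => simp [LL_nil, lprod_nil, hb]
  | cons a l ih =>
    obtain ⟨ih1, ih2⟩ := ih
    have hσ : 0 ≤ σ := (norm_nonneg _).trans (hl 0)
    have hs : Summable fun n => ‖b n * lprod (a :: l) (lam n)‖ := by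
      refine Summable.of_nonneg_of_le (fun n => norm_nonneg _) (fun n => ?_)
        (ih2.mul_left (σ + ‖a‖))
      rw [lprod_cons, norm_mul, norm_mul, norm_mul]
      have h1 : ‖lam n - a‖ ≤ σ + ‖a‖ := (norm_sub_le _ _).trans (by linarith [hl n])
      calc ‖b n‖ * (‖lam n - a‖ * ‖lprod l (lam n)‖) = ‖lam n - a‖ * (‖b n‖ * ‖lprod l (lam n)‖) := by
            ring
        _ ≤ (σ + ‖a‖) * (‖b n‖ * ‖lprod l (lam n)‖) := by gcongr
    refine ⟨?_, hs⟩
    rw [LL_cons, ih1]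
    funext z
    unfold Lop
    rw [(ES_hasDeriv hl ih2 z).deriv]
    unfold ES
    rw [← tsum_mul_left, ← Summable.tsum_sub]
    · congr 1
      funext n
      simp only [lprod_cons]
      ring
    · refine ES_summable hl ?_ z
      refine Summable.of_nonneg_of_le (fun n => norm_nonneg _) (fun n => ?_) (ih2.mul_left σ)
      rw [norm_mul _ (lam n), mul_comm]
      exact mul_le_mul_of_nonneg_right (hl n) (norm_nonneg _)
    · exact (ES_summable hl ih2 z).mul_left a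

/-! ### the coefficients -/

/-- the earlier frequencies different from `lam n` -/
noncomputable def fl (lam : ℕ → ℂ) (M n : ℕ) : List ℂ := by
  classical exact ((List.range M).map lam).filter (fun x => x ≠ lam n)

lemma fl_mem {lam : ℕ → ℂ} {M n : ℕ} {x : ℂ} : x ∈ fl lam M n ↔ (∃ m < M, lam m = x) ∧ x ≠ lam n := by
  classical
  unfold fl
  rw [List.mem_filter, List.mem_map]
  simp

lemma fl_length (lam : ℕ → ℂ) (M n : ℕ) : (fl lam M n).length ≤ M := by
  classical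
  unfold fl
  exact (List.length_filter_le _ _).trans (by simp)

lemma lprod_ne {l : List ℂ} {z : ℂ} (h : ∀ a ∈ l, z ≠ a) : lprod l z ≠ 0 := by
  unfold lprod
  rw [ne_eq, List.prod_eq_zero_iff, List.mem_map]
  rintro ⟨a, ha, h0⟩
  exact h a ha (sub_eq_zero.mp h0)

lemma lprod_zero {l : List ℂ} {z : ℂ} (h : z ∈ l) : lprod l z = 0 := by
  unfold lprod
  apply List.prod_eq_zero
  rw [List.mem_map]
  exact ⟨z, h, sub_self _⟩

lemma lprod_norm_le {l : List ℂ} {z : ℂ} {σ : ℝ} (hz : ‖z‖ ≤ σ) (h : ∀ a ∈ l, ‖a‖ ≤ σ) :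
    ‖lprod l z‖ ≤ (2 * σ) ^ l.length := by
  have hσ : 0 ≤ σ := (norm_nonneg _).trans hz
  induction l with
  | nil => simp [lprod_nil]
  | cons a l ih =>
    rw [lprod_cons, norm_mul, List.length_cons, pow_succ, mul_comm]
    have h1 : ‖z - a‖ ≤ 2 * σ := (norm_sub_le _ _).trans (by linarith [h a (by simp)])
    have h2 := ih (fun b hb => h b (List.mem_cons_of_mem _ hb))
    exact mul_le_mul h2 h1 (norm_nonneg _) (by positivity)

/-- increments of the exponents -/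
noncomputable def ai (lam : ℕ → ℂ) (i : ℕ) : ℝ :=
  ((i : ℝ) + 1) * (i + 1 + ∑ n ∈ Finset.range (i + 1), |Real.log ‖lprod (fl lam (i + 1) n) (lam n)‖|)

/-- exponents -/
noncomputable def Ai (lam : ℕ → ℂ) (k : ℕ) : ℝ := ∑ i ∈ Finset.range (k + 1), ai lam i

lemma ai_ge (lam : ℕ → ℂ) (i : ℕ) : 1 ≤ ai lam i := by
  unfold ai
  have h1 : 0 ≤ ∑ n ∈ Finset.range (i + 1), |Real.log ‖lprod (fl lam (i + 1) n) (lam n)‖| :=
    Finset.sum_nonneg fun _ _ => abs_nonneg _
  have h2 : (0 : ℝ) ≤ i := Nat.cast_nonneg i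
  nlinarith

lemma Ai_succ (lam : ℕ → ℂ) (k : ℕ) : Ai lam k + 1 ≤ Ai lam (k + 1) := by
  have h : Ai lam (k + 1) = Ai lam k + ai lam (k + 1) := Finset.sum_range_succ _ _
  rw [h]
  linarith [ai_ge lam (k + 1)]

lemma Ai_add (lam : ℕ → ℂ) (k j : ℕ) : Ai lam k + j ≤ Ai lam (k + j) := by
  induction j with
  | zero => simp
  | succ j ih =>
    have h1 : Ai lam (k + j) + 1 ≤ Ai lam (k + (j + 1)) := Ai_succ lam (k + j)
    push_cast
    linarith

lemma ai_le_Ai (lam : ℕ → ℂ) (k : ℕ) : ai lam k ≤ Ai lam k := by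
  unfold Ai
  rw [Finset.sum_range_succ]
  have : 0 ≤ ∑ i ∈ Finset.range k, ai lam i :=
    Finset.sum_nonneg fun i _ => by linarith [ai_ge lam i]
  linarith

lemma Ai_nonneg (lam : ℕ → ℂ) (k : ℕ) : (k : ℝ) ≤ Ai lam k := by
  have h := Ai_add lam 0 k
  rw [zero_add] at h
  have h1 := ai_le_Ai lam 0
  have h2 := ai_ge lam 0
  linarith

/-- the number of frequencies which matter up to `X` -/
lemma exists_M (lam : ℕ → ℂ) (n : ℕ) {ε : ℝ} (hε : 0 < ε) : ∃ X₀ : ℝ, ∀ X ≥ X₀, ∃ M : ℕ, n < M ∧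
    (M : ℝ) ^ 2 ≤ X ∧ |Real.log ‖lprod (fl lam M n) (lam n)‖| ≤ ε * X ∧
    ∀ j : ℕ, X + j ≤ Ai lam (M + j) := by
  classical
  obtain ⟨K, hK⟩ := exists_nat_ge (max (n : ℝ) (1 / ε))
  refine ⟨Ai lam K, fun X hX => ?_⟩
  have hex : ∃ M : ℕ, X < Ai lam M := by
    obtain ⟨m, hm⟩ := exists_nat_gt X
    exact ⟨m, hm.trans_le (Ai_nonneg lam m)⟩
  set M := Nat.find hex with hM
  have hM1 : X < Ai lam M := Nat.find_spec hex
  have hmono : ∀ a b : ℕ, a ≤ b → Ai lam a ≤ Ai lam b := by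
    intro a b hab
    obtain ⟨j, rfl⟩ := Nat.exists_eq_add_of_le hab
    have := Ai_add lam a j
    have h2 : (0 : ℝ) ≤ j := Nat.cast_nonneg j
    linarith
  have hKM : K < M := by
    by_contra hcon
    push Not at hcon
    exact absurd (hM1.trans_le (hmono _ _ hcon)) (not_lt.mpr hX)
  obtain ⟨M', hM'⟩ : ∃ M', M = M' + 1 := ⟨M - 1, by omega⟩
  have hle : Ai lam M' ≤ X := by
    by_contra hcon
    push Not at hcon
    have := Nat.find_min' hex hcon
    omega
  have hai : ai lam M' ≤ X := (ai_le_Ai lam M').trans hle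
  have hnK : n ≤ K := by
    have : (n : ℝ) ≤ K := (le_max_left _ _).trans hK
    exact_mod_cast this
  have hsum : |Real.log ‖lprod (fl lam M n) (lam n)‖| ≤
      ∑ n ∈ Finset.range (M' + 1), |Real.log ‖lprod (fl lam (M' + 1) n) (lam n)‖| := by
    rw [hM']
    exact Finset.single_le_sum (f := fun n => |Real.log ‖lprod (fl lam (M' + 1) n) (lam n)‖|)
      (fun _ _ => abs_nonneg _) (Finset.mem_range.mpr (by omega))
  have hs0 : 0 ≤ ∑ n ∈ Finset.range (M' + 1), |Real.log ‖lprod (fl lam (M' + 1) n) (lam n)‖| :=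
    Finset.sum_nonneg fun _ _ => abs_nonneg _
  have hMr : (M : ℝ) = M' + 1 := by rw [hM']; push_cast; ring
  have hMpos : (0 : ℝ) < M' + 1 := by positivity
  have hai' : ((M' : ℝ) + 1) * (M' + 1 + ∑ n ∈ Finset.range (M' + 1),
      |Real.log ‖lprod (fl lam (M' + 1) n) (lam n)‖|) ≤ X := hai
  refine ⟨M, by omega, ?_, ?_, ?_⟩
  · rw [hMr]
    nlinarith
  · have h1 : 1 / ε ≤ M' + 1 := by
      have h2 : (1 / ε) ≤ K := (le_max_right _ _).trans hK
      have h3 : (K : ℝ) ≤ M' := by exact_mod_cast (by omega : K ≤ M')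
      linarith
    have h2 : 1 ≤ ε * (M' + 1) := by
      rw [div_le_iff₀ hε] at h1
      linarith
    have hX0 : 0 ≤ X := by nlinarith
    have h3 : ((M' : ℝ) + 1) * |Real.log ‖lprod (fl lam M n) (lam n)‖| ≤ X := by nlinarith
    have h4 : 0 ≤ |Real.log ‖lprod (fl lam M n) (lam n)‖| := abs_nonneg _
    nlinarith
  · intro j
    have := Ai_add lam M j
    linarith

/-- coefficients -/
noncomputable def aj (lam : ℕ → ℂ) (n : ℕ) : ℝ := Real.exp (-Ai lam n)

lemma aj_pos (lam : ℕ → ℂ) (n : ℕ) : 0 < aj lam n := Real.exp_pos _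

lemma aj_le (lam : ℕ → ℂ) (n : ℕ) : aj lam n ≤ Real.exp (-1) ^ n := by
  unfold aj
  rw [← Real.exp_nat_mul]
  apply Real.exp_le_exp.mpr
  have := Ai_nonneg lam n
  linarith

lemma aj_summable (lam : ℕ → ℂ) : Summable (aj lam) :=
  Summable.of_nonneg_of_le (fun n => (aj_pos lam n).le) (aj_le lam)
    (summable_geometric_of_lt_one (Real.exp_pos _).le (by
      rw [Real.exp_lt_one_iff]; norm_num))

/-- the function -/
noncomputable def hf (lam : ℕ → ℂ) : ℂ → ℂ := ES lam (fun n => (aj lam n : ℂ))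

lemma ajc_summable (lam : ℕ → ℂ) : Summable fun n => ‖(aj lam n : ℂ)‖ := by
  refine (aj_summable lam).congr (fun n => ?_)
  rw [Complex.norm_real, Real.norm_of_nonneg (aj_pos lam n).le]

lemma hf_UB {D : Set ℂ} (hD : IsCompact D) {lam : ℕ → ℂ} (hlam : ∀ n, lam n ∈ D) : UB (hf lam) D := by
  intro ε hε
  refine ⟨∑' n, aj lam n, ?_, fun z => ?_⟩
  · exact (aj_summable lam).tsum_pos (fun n => (aj_pos lam n).le) 0 (aj_pos lam 0)
  · have hs : HasSum (fun n => aj lam n * Real.exp (H D z + ε * ‖z‖))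
        ((∑' n, aj lam n) * Real.exp (H D z + ε * ‖z‖)) := (aj_summable lam).hasSum.mul_right _
    apply tsum_of_norm_bounded hs
    intro n
    rw [norm_mul, Complex.norm_real, Real.norm_of_nonneg (aj_pos lam n).le, Complex.norm_exp]
    apply mul_le_mul_of_nonneg_left _ (aj_pos lam n).le
    apply Real.exp_le_exp.mpr
    have h1 := le_H hD (hlam n) z
    have h2 : 0 ≤ ε * ‖z‖ := by positivity
    linarith

end Pool.Agent.KS6_90.CRG
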