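import Pool.Agent.KS6_90.CRG.Hfun

set_option autoImplicit false

open Filter Topology Metric

namespace Pool.Agent.KS6_90.CRG

open Pool.Agent.Helper960.Crg

/-- lower bound for an exponential sum with separated leading term -/
lemma es_lower {lam : ℕ → ℂ} {σ : ℝ} (hσ1 : 1 ≤ σ) (hl : ∀ n, ‖lam n‖ ≤ σ) {M n : ℕ}
    {X : ℝ} (hX : ∀ j : ℕ, X + j ≤ Ai lam (M + j)) (z : ℂ) :
    aj lam n * (‖lprod (fl lam M n) (lam n)‖ * Real.exp ((lam n * z).re)) ≤
      ‖LL (fl lam M n) (hf lam) z‖ + 2 * (Real.exp (-X) * ((2 * σ) ^ M * Real.exp (σ * ‖z‖))) := by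
  classical
  have hσ0 : 0 ≤ σ := by linarith
  set l := fl lam M n with hl'
  obtain ⟨e1, hs1⟩ := LL_ES hl (ajc_summable lam) l
  have e2 : LL l (hf lam) z = ∑' j, (aj lam j : ℂ) * lprod l (lam j) * Complex.exp (lam j * z) := by
    have := congrFun e1 z
    exact this
  set V : ℂ := lprod l (lam n) * Complex.exp (lam n * z) with hV
  have hVn : ‖V‖ = ‖lprod l (lam n)‖ * Real.exp ((lam n * z).re) := by
    rw [hV, norm_mul, Complex.norm_exp]
  set y : ℕ → ℝ := fun j => if lam j = lam n then aj lam j else 0 with hy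
  have hy0 : ∀ j, 0 ≤ y j := by
    intro j; simp only [hy]; split_ifs
    · exact (aj_pos lam j).le
    · exact le_rfl
  have hys : Summable y := by
    refine Summable.of_nonneg_of_le hy0 (fun j => ?_) (aj_summable lam)
    simp only [hy]; split_ifs
    · exact le_rfl
    · exact (aj_pos lam j).le
  have hyn : aj lam n ≤ ∑' j, y j := by
    have := hys.le_tsum n (fun j _ => hy0 j)
    simpa [hy] using this
  have hXs : Summable fun j => (aj lam j : ℂ) * lprod l (lam j) * Complex.exp (lam j * z) :=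
    ES_summable hl hs1 z
  have hYs : Summable fun j => (y j : ℂ) * V := by
    apply Summable.mul_right
    exact_mod_cast hys
  set Z : ℕ → ℂ := fun j => (aj lam j : ℂ) * lprod l (lam j) * Complex.exp (lam j * z) -
    (y j : ℂ) * V with hZ
  have hZs : Summable Z := hXs.sub hYs
  have hZ0 : ∀ j, j < M → Z j = 0 := by
    intro j hj
    simp only [hZ, hy]
    by_cases h : lam j = lam n
    · rw [if_pos h, h, hV]; ring
    · rw [if_neg h]
      have : lprod l (lam j) = 0 := lprod_zero (fl_mem.mpr ⟨⟨j, hj, rfl⟩, h⟩)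
      rw [this]; simp
  have hlb : ∀ a ∈ l, ‖a‖ ≤ σ := by
    intro a ha
    obtain ⟨⟨m, -, rfl⟩, -⟩ := fl_mem.mp ha
    exact hl m
  have hZb : ∀ i, ‖Z (i + M)‖ ≤ (Real.exp (-X) * ((2 * σ) ^ M * Real.exp (σ * ‖z‖))) *
      Real.exp (-1) ^ i := by
    intro i
    simp only [hZ, hy]
    by_cases h : lam (i + M) = lam n
    · rw [if_pos h, h, hV]
      have : (aj lam (i + M) : ℂ) * lprod l (lam n) * Complex.exp (lam n * z) -
        (aj lam (i + M) : ℂ) * (lprod l (lam n) * Complex.exp (lam n * z)) = 0 := by ring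
      rw [this, norm_zero]
      positivity
    · rw [if_neg h]
      simp only [Complex.ofReal_zero, zero_mul, sub_zero]
      rw [norm_mul, norm_mul, Complex.norm_real, Real.norm_of_nonneg (aj_pos lam _).le]
      have h1 : aj lam (i + M) ≤ Real.exp (-X) * Real.exp (-1) ^ i := by
        unfold aj
        rw [← Real.exp_nat_mul, ← Real.exp_add]
        apply Real.exp_le_exp.mpr
        have := hX i
        rw [add_comm M i] at this
        linarith
      have h2 : ‖lprod l (lam (i + M))‖ ≤ (2 * σ) ^ M :=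
        (lprod_norm_le (hl _) hlb).trans
          (pow_le_pow_right₀ (by linarith) (fl_length lam M n))
      have h3 := exp_norm_le (z := z) (hl (i + M))
      calc aj lam (i + M) * ‖lprod l (lam (i + M))‖ * ‖Complex.exp (lam (i + M) * z)‖ ≤
          (Real.exp (-X) * Real.exp (-1) ^ i) * (2 * σ) ^ M * Real.exp (σ * ‖z‖) := by
            gcongr
        _ = _ := by ring
  have hq : Real.exp (-1) < 1 := by rw [Real.exp_lt_one_iff]; norm_num
  have hq2 : Real.exp (-1) ≤ 1 / 2 := by
    have h := Real.add_one_le_exp (1 : ℝ)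
    rw [Real.exp_neg, one_div]
    exact inv_anti₀ (by norm_num) (by linarith)
  have hZsum : ‖∑' j, Z j‖ ≤ 2 * (Real.exp (-X) * ((2 * σ) ^ M * Real.exp (σ * ‖z‖))) := by
    rw [← hZs.sum_add_tsum_nat_add M, Finset.sum_eq_zero (fun j hj => hZ0 j (Finset.mem_range.mp hj)),
      zero_add]
    have hg := (hasSum_geometric_of_lt_one (Real.exp_pos (-1)).le hq).mul_left
      (Real.exp (-X) * ((2 * σ) ^ M * Real.exp (σ * ‖z‖)))
    refine (tsum_of_norm_bounded hg hZb).trans ?_
    have h4 : (1 - Real.exp (-1))⁻¹ ≤ 2 := by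
      rw [inv_le_comm₀ (by linarith) (by norm_num)]
      linarith
    calc _ ≤ (Real.exp (-X) * ((2 * σ) ^ M * Real.exp (σ * ‖z‖))) * 2 := by gcongr
      _ = _ := by ring
  have hsplit : LL l (hf lam) z = (∑' j, (y j : ℂ)) * V + ∑' j, Z j := by
    rw [e2, ← tsum_mul_right, ← hYs.tsum_add hZs]
    congr 1
    funext j
    simp only [hZ]
    ring
  have hreal : (∑' j, (y j : ℂ)) = ((∑' j, y j : ℝ) : ℂ) := by
    rw [Complex.ofReal_tsum]
  rw [hreal] at hsplit
  have h5 : ‖((∑' j, y j : ℝ) : ℂ) * V‖ ≤ ‖LL l (hf lam) z‖ + ‖∑' j, Z j‖ := by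
    have : ((∑' j, y j : ℝ) : ℂ) * V = LL l (hf lam) z - ∑' j, Z j := by rw [hsplit]; ring
    rw [this]
    exact norm_sub_le _ _
  rw [norm_mul, Complex.norm_real, Real.norm_of_nonneg (tsum_nonneg hy0)] at h5
  calc aj lam n * (‖lprod l (lam n)‖ * Real.exp ((lam n * z).re)) = aj lam n * ‖V‖ := by rw [hVn]
    _ ≤ (∑' j, y j) * ‖V‖ := mul_le_mul_of_nonneg_right hyn (norm_nonneg _)
    _ ≤ _ := h5.trans (by linarith)

theorem hf_PL {D : Set ℂ} (hD : IsCompact D) (hne : D.Nonempty) {lam : ℕ → ℂ}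
    (hlam : ∀ n, lam n ∈ D) (hdense : D ⊆ closure (Set.range lam)) (u : ℂ) : PL (hf lam) D u := by
  classical
  obtain ⟨σ', hσ'⟩ := hD.isBounded.exists_norm_le
  set σ := max σ' 1 with hσdef
  have hσ1 : 1 ≤ σ := le_max_right _ _
  have hσ0 : 0 < σ := by linarith
  have hσ : ∀ ζ ∈ D, ‖ζ‖ ≤ σ := fun ζ hζ => (hσ' ζ hζ).trans (le_max_left _ _)
  have hl : ∀ n, ‖lam n‖ ≤ σ := fun n => hσ _ (hlam n)
  by_contra hcon
  obtain ⟨δ', hδ', η, hη, hbad⟩ := not_PL hcon
  set δ := min δ' (η / (4 * σ)) with hδ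
  have hδ0 : 0 < δ := lt_min hδ' (by positivity)
  -- a nearly extremal frequency
  obtain ⟨ζ, hζD, hζ⟩ := exists_H hD hne u
  obtain ⟨n, hn⟩ : ∃ n, H D u - η / 8 ≤ (lam n * u).re := by
    have hz := hdense hζD
    have hop : IsOpen {x : ℂ | H D u - η / 8 < (x * u).re} :=
      isOpen_lt continuous_const (Complex.continuous_re.comp (continuous_id.mul continuous_const))
    obtain ⟨x, hx1, ⟨n, rfl⟩⟩ := mem_closure_iff.mp hz _ hop (by
      show H D u - η / 8 < (ζ * u).re
      rw [hζ]; linarith)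
    exact ⟨n, le_of_lt hx1⟩
  set C := 2 * σ * ‖u‖ + η + 1 with hC
  have hC0 : 0 < C := by positivity
  obtain ⟨X₀, hX₀⟩ := exists_M lam n (ε := η / (16 * C)) (by positivity)
  set L := Real.log (2 * σ + 2) with hL
  have hL0 : 0 < L := Real.log_pos (by linarith)
  obtain ⟨r, hr, hrb⟩ := hbad (max (max (max (X₀ / C) (16 * Ai lam n / η))
    (max (256 * C * L ^ 2 / η ^ 2) (C / δ ^ 2))) (max 1 (4 / η)))
  have hr1 : X₀ / C ≤ r := ((le_max_left _ _).trans (le_max_left _ _)).trans
    ((le_max_left _ _).trans hr)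
  have hr2 : 16 * Ai lam n / η ≤ r := ((le_max_right _ _).trans (le_max_left _ _)).trans
    ((le_max_left _ _).trans hr)
  have hr3 : 256 * C * L ^ 2 / η ^ 2 ≤ r := ((le_max_left _ _).trans (le_max_right _ _)).trans
    ((le_max_left _ _).trans hr)
  have hr4 : C / δ ^ 2 ≤ r := ((le_max_right _ _).trans (le_max_right _ _)).trans
    ((le_max_left _ _).trans hr)
  have hr5 : 1 ≤ r := (le_max_left _ _).trans ((le_max_right _ _).trans hr)
  have hr6 : 4 / η ≤ r := (le_max_right _ _).trans ((le_max_right _ _).trans hr)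
  have hr0 : 0 < r := by linarith
  obtain ⟨M, hnM, hM2, hMlog, hMA⟩ := hX₀ (C * r) (by
    rw [div_le_iff₀ hC0] at hr1; linarith)
  have hM1 : (1 : ℝ) ≤ M := by exact_mod_cast (by omega : 1 ≤ M)
  have hM0 : (0 : ℝ) < M := by linarith
  have hMlog' : |Real.log ‖lprod (fl lam M n) (lam n)‖| ≤ η * r / 16 := by
    refine hMlog.trans (le_of_eq ?_)
    field_simp
  -- M is small
  have hMδ : (M : ℝ) / (δ * r) ≤ 1 := by
    rw [div_le_one (by positivity)]
    have h1 : C ≤ δ ^ 2 * r := by
      rw [div_le_iff₀ (by positivity)] at hr4; linarith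
    have h2 : (M : ℝ) ^ 2 ≤ (δ * r) ^ 2 := by nlinarith
    exact le_of_sq_le_sq h2 (by positivity)
  have hML : (M : ℝ) * L ≤ η * r / 16 := by
    have h1 : 256 * C * L ^ 2 ≤ η ^ 2 * r := by
      rw [div_le_iff₀ (by positivity)] at hr3; linarith
    have h2 : ((M : ℝ) * L) ^ 2 ≤ (η * r / 16) ^ 2 := by
      have h3 : ((M : ℝ) * L) ^ 2 ≤ C * r * L ^ 2 := by
        rw [mul_pow]; exact mul_le_mul_of_nonneg_right hM2 (by positivity)
      nlinarith
    exact le_of_sq_le_sq h2 (by positivity)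
  have hpow : ∀ x : ℝ, 0 ≤ x → x ≤ 2 * σ + 2 → x ^ M ≤ Real.exp (η * r / 16) := by
    intro x hx0 hx
    calc x ^ M ≤ (2 * σ + 2) ^ M := pow_le_pow_left₀ hx0 hx _
      _ = Real.exp (M * L) := by
        rw [hL, Real.exp_nat_mul, Real.exp_log (by linarith)]
      _ ≤ _ := Real.exp_le_exp.mpr hML
  have hHn : -(σ * ‖u‖) ≤ H D u := neg_H_le hD hne hσ u
  -- upper bound of LL
  have hup : ‖LL (fl lam M n) (hf lam) (r * u)‖ ≤
      Real.exp (η * r / 16) * Real.exp (r * H D u - 3 * η * r / 4) := by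
    have hdiff : Differentiable ℂ (hf lam) := ES_diff hl (ajc_summable lam)
    have hs : 0 < δ * r / M := by positivity
    have hlb : ∀ a ∈ fl lam M n, ‖a‖ ≤ σ := by
      intro a ha
      obtain ⟨⟨m, -, rfl⟩, -⟩ := fl_mem.mp ha
      exact hl m
    have h1 := LL_bound hdiff (ρ := δ * r) hs hσ0.le (r * u)
      (S := Real.exp (r * H D u - 3 * η * r / 4)) (by
        intro w hw
        have hw' : ‖w - r * u‖ ≤ δ' * r :=
          hw.trans (mul_le_mul_of_nonneg_right (min_le_left _ _) hr0.le)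
        refine (hrb w hw').le.trans (Real.exp_le_exp.mpr ?_)
        have h2 := H_lip hD hne hσ w (r * u)
        rw [H_smul hD hne u hr0.le] at h2
        have h3 : σ * ‖w - r * u‖ ≤ η * r / 4 := by
          calc σ * ‖w - r * u‖ ≤ σ * (δ * r) := mul_le_mul_of_nonneg_left hw hσ0.le
            _ ≤ σ * (η / (4 * σ) * r) := by
              have := min_le_right δ' (η / (4 * σ))
              gcongr
            _ = η * r / 4 := by field_simp
        linarith) (fl lam M n) hlb (r * u) (by
        rw [sub_self, norm_zero, sub_nonneg]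
        have h4 : ((fl lam M n).length : ℝ) ≤ M := by exact_mod_cast fl_length lam M n
        calc ((fl lam M n).length : ℝ) * (δ * r / M) ≤ M * (δ * r / M) := by gcongr
          _ = δ * r := by field_simp)
    refine h1.trans (mul_le_mul_of_nonneg_right ?_ (Real.exp_pos _).le)
    have h5 : 1 / (δ * r / M) + σ ≤ 2 * σ + 2 := by
      rw [one_div_div]; linarith
    have h6 : 1 ≤ 1 / (δ * r / M) + σ := by
      have : 0 ≤ 1 / (δ * r / M) := by positivity
      linarith
    exact (pow_le_pow_right₀ h6 (fl_length lam M n)).trans (hpow _ (by linarith) h5)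
  -- lower bound
  have hlow := es_lower hσ1 hl (n := n) hMA (r * u)
  have hnr : ‖(r : ℂ) * u‖ = r * ‖u‖ := by
    rw [norm_mul, Complex.norm_real, Real.norm_of_nonneg hr0.le]
  have hre : (lam n * (r * u)).re = r * (lam n * u).re := by
    rw [show lam n * ((r : ℂ) * u) = (r : ℂ) * (lam n * u) by ring, Complex.re_ofReal_mul]
  rw [hnr, hre] at hlow
  have hlp : Real.exp (-(η * r / 16)) ≤ ‖lprod (fl lam M n) (lam n)‖ := by
    have hpos : 0 < ‖lprod (fl lam M n) (lam n)‖ :=
      norm_pos_iff.mpr (lprod_ne fun a ha => ((fl_mem.mp ha).2).symm)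
    rw [← Real.le_log_iff_exp_le hpos]
    have := neg_abs_le (Real.log ‖lprod (fl lam M n) (lam n)‖)
    linarith
  have haj : Real.exp (-(η * r / 16)) ≤ aj lam n := by
    unfold aj
    apply Real.exp_le_exp.mpr
    rw [div_le_iff₀ hη] at hr2
    linarith
  have hLHS : Real.exp (r * H D u - η * r / 4) ≤
      aj lam n * (‖lprod (fl lam M n) (lam n)‖ * Real.exp (r * (lam n * u).re)) := by
    calc Real.exp (r * H D u - η * r / 4) = Real.exp (-(η * r / 16)) * (Real.exp (-(η * r / 16)) *
          Real.exp (r * H D u - η * r / 8)) := by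
          rw [← Real.exp_add, ← Real.exp_add]; ring_nf
      _ ≤ aj lam n * (‖lprod (fl lam M n) (lam n)‖ * Real.exp (r * (lam n * u).re)) := by
          have h7 : Real.exp (r * H D u - η * r / 8) ≤ Real.exp (r * (lam n * u).re) := by
            apply Real.exp_le_exp.mpr
            nlinarith
          have := aj_pos lam n
          gcongr
  have ht2 : 2 * (Real.exp (-(C * r)) * ((2 * σ) ^ M * Real.exp (σ * (r * ‖u‖)))) ≤
      2 * Real.exp (r * H D u - 15 * η * r / 16 - r) := by
    have h8 : (2 * σ) ^ M ≤ Real.exp (η * r / 16) := hpow _ (by positivity) (by linarith)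
    have h9 : Real.exp (-(C * r)) * ((2 * σ) ^ M * Real.exp (σ * (r * ‖u‖))) ≤
        Real.exp (-(C * r)) * (Real.exp (η * r / 16) * Real.exp (σ * (r * ‖u‖))) := by gcongr
    have h10 : Real.exp (-(C * r)) * (Real.exp (η * r / 16) * Real.exp (σ * (r * ‖u‖))) ≤
        Real.exp (r * H D u - 15 * η * r / 16 - r) := by
      rw [← Real.exp_add, ← Real.exp_add]
      apply Real.exp_le_exp.mpr
      rw [hC]
      nlinarith
    linarith
  have hfin : Real.exp (r * H D u - η * r / 4) ≤
      Real.exp (r * H D u - 11 * η * r / 16) + 2 * Real.exp (r * H D u - 15 * η * r / 16 - r) := by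
    have h11 : Real.exp (η * r / 16) * Real.exp (r * H D u - 3 * η * r / 4) =
        Real.exp (r * H D u - 11 * η * r / 16) := by
      rw [← Real.exp_add]; ring_nf
    rw [h11] at hup
    linarith
  have hηr : 4 ≤ η * r := by
    rw [div_le_iff₀ hη] at hr6; linarith
  have k1 : Real.exp (r * H D u - 11 * η * r / 16) ≤ Real.exp (r * H D u - η * r / 4) * (1 / 2) := by
    have : (1 / 2 : ℝ) ≥ Real.exp (-1) := by
      have h := Real.add_one_le_exp (1 : ℝ)
      rw [Real.exp_neg, one_div]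
      exact inv_anti₀ (by norm_num) (by linarith)
    calc Real.exp (r * H D u - 11 * η * r / 16) ≤ Real.exp (r * H D u - η * r / 4) * Real.exp (-1) := by
          rw [← Real.exp_add]; apply Real.exp_le_exp.mpr; linarith
      _ ≤ _ := by gcongr
  have k2 : 2 * Real.exp (r * H D u - 15 * η * r / 16 - r) ≤
      Real.exp (r * H D u - η * r / 4) * (1 / 4) := by
    have h := Real.add_one_le_exp (3 : ℝ)
    have h12 : Real.exp (-3) ≤ 1 / 8 := by
      have h13 : (2 : ℝ) ≤ Real.exp 1 := by
        have := Real.add_one_le_exp (1 : ℝ); linarith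
      have h14 : (8 : ℝ) ≤ Real.exp 3 := by
        have h15 : Real.exp 3 = Real.exp 1 ^ 3 := by rw [← Real.exp_nat_mul]; norm_num
        rw [h15]
        calc (8 : ℝ) = 2 ^ 3 := by norm_num
          _ ≤ _ := pow_le_pow_left₀ (by norm_num) h13 3
      rw [Real.exp_neg, one_div]
      exact inv_anti₀ (by norm_num) h14
    calc 2 * Real.exp (r * H D u - 15 * η * r / 16 - r) ≤
        2 * (Real.exp (r * H D u - η * r / 4) * Real.exp (-3)) := by
          rw [← Real.exp_add]
          have : Real.exp (r * H D u - 15 * η * r / 16 - r) ≤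
            Real.exp (r * H D u - η * r / 4 + -3) := by
            apply Real.exp_le_exp.mpr; linarith
          linarith
      _ ≤ 2 * (Real.exp (r * H D u - η * r / 4) * (1 / 8)) := by gcongr
      _ = _ := by ring
  have hpos := Real.exp_pos (r * H D u - η * r / 4)
  linarith

end Pool.Agent.KS6_90.CRG
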