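import Mathlib

/-!
# A lacunary series of irregular growth

`lac z = ∑ (z / N_j)^{N_j}`, `N_j = 2^{2^j}`.
-/

set_option autoImplicit false

open Filter Topology Metric

namespace Pool.Agent.KS6_90.CRG

/-- exponents -/
def NN (j : ℕ) : ℕ := 2 ^ 2 ^ j

lemma NN_pos (j : ℕ) : 0 < NN j := by unfold NN; positivity

lemma NN_succ (j : ℕ) : NN (j + 1) = NN j ^ 2 := by
  unfold NN
  rw [← pow_mul, pow_succ]

lemma NN_gt (j : ℕ) : j + 1 ≤ NN j := by
  unfold NN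
  have h1 : j < 2 ^ j := Nat.lt_two_pow_self
  have h2 : 2 ^ j < 2 ^ 2 ^ j := Nat.lt_two_pow_self
  omega

lemma NN_mono {i j : ℕ} (h : i ≤ j) : NN i ≤ NN j := by
  unfold NN
  exact Nat.pow_le_pow_right (by norm_num) (Nat.pow_le_pow_right (by norm_num) h)

/-- terms -/
noncomputable def tj (j : ℕ) (z : ℂ) : ℂ := (z / NN j) ^ NN j

lemma tj_norm (j : ℕ) (z : ℂ) : ‖tj j z‖ = (‖z‖ / NN j) ^ NN j := by
  unfold tj
  rw [norm_pow, norm_div, Complex.norm_natCast]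

lemma tj_small {j : ℕ} {z : ℂ} (h : 2 * ‖z‖ ≤ NN j) : ‖tj j z‖ ≤ (1 / 2) ^ (j + 1) := by
  rw [tj_norm]
  have hN : (0 : ℝ) < NN j := by exact_mod_cast NN_pos j
  have h1 : ‖z‖ / NN j ≤ 1 / 2 := by
    rw [div_le_iff₀ hN]; linarith
  calc (‖z‖ / NN j) ^ NN j ≤ (1 / 2) ^ NN j := pow_le_pow_left₀ (by positivity) h1 _
    _ ≤ (1 / 2) ^ (j + 1) := pow_le_pow_of_le_one (by norm_num) (by norm_num) (NN_gt j)

lemma tj_le (j : ℕ) (z : ℂ) : ‖tj j z‖ ≤ Real.exp (‖z‖ / Real.exp 1) := by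
  rw [tj_norm]
  have hN : (0 : ℝ) < NN j := by exact_mod_cast NN_pos j
  have he := Real.exp_pos 1
  have h1 : ‖z‖ / NN j ≤ Real.exp (‖z‖ / NN j / Real.exp 1) := by
    have h2 := Real.add_one_le_exp (‖z‖ / NN j / Real.exp 1 - 1)
    rw [sub_add_cancel, Real.exp_sub, div_le_div_iff_of_pos_right he] at h2
    exact h2
  calc (‖z‖ / NN j) ^ NN j ≤ Real.exp (‖z‖ / NN j / Real.exp 1) ^ NN j :=
        pow_le_pow_left₀ (by positivity) h1 _
    _ = Real.exp (‖z‖ / Real.exp 1) := by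
        rw [← Real.exp_nat_mul]
        congr 1
        field_simp

lemma tj_le_pow {j k : ℕ} (h : j ≤ k) {z : ℂ} (hz : 1 ≤ ‖z‖) : ‖tj j z‖ ≤ ‖z‖ ^ NN k := by
  rw [tj_norm]
  have hN : (1 : ℝ) ≤ NN j := by exact_mod_cast NN_pos j
  calc (‖z‖ / NN j) ^ NN j ≤ ‖z‖ ^ NN j :=
        pow_le_pow_left₀ (by positivity) (div_le_self (by linarith) hN) _
    _ ≤ ‖z‖ ^ NN k := pow_le_pow_right₀ hz (NN_mono h)

/-- the lacunary series -/
noncomputable def lac (z : ℂ) : ℂ := ∑' j, tj j z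

lemma exists_NN (X : ℝ) : ∃ k, X ≤ NN (k + 1) ∧ (k : ℝ) ≤ |X| + 1 := by
  obtain ⟨m, hm⟩ := exists_nat_ge |X|
  refine ⟨⌈|X|⌉₊, ?_, ?_⟩
  · have h1 : |X| ≤ ⌈|X|⌉₊ := Nat.le_ceil _
    have h2 : ((⌈|X|⌉₊ + 1 + 1 : ℕ) : ℝ) ≤ NN (⌈|X|⌉₊ + 1) := by exact_mod_cast NN_gt _
    push_cast at h2
    linarith [le_abs_self X]
  · exact (Nat.ceil_lt_add_one (abs_nonneg X)).le

lemma lac_tail {k : ℕ} {z : ℂ} (h : 2 * ‖z‖ ≤ NN (k + 1)) :
    (Summable fun j => tj j z) ∧ ‖lac z - ∑ j ∈ Finset.range (k + 1), tj j z‖ ≤ 1 := by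
  have hb : ∀ i, ‖tj (i + (k + 1)) z‖ ≤ (1 / 2) ^ (i + 1) := by
    intro i
    have h1 : 2 * ‖z‖ ≤ NN (i + (k + 1)) :=
      h.trans (by exact_mod_cast NN_mono (by omega))
    refine (tj_small h1).trans (pow_le_pow_of_le_one (by norm_num) (by norm_num) (by omega))
  have hg : HasSum (fun i : ℕ => ((1 : ℝ) / 2) ^ (i + 1)) 1 := by
    have h1 := (hasSum_geometric_of_lt_one (r := (1 : ℝ) / 2) (by norm_num) (by norm_num)).mul_left
      ((1 : ℝ) / 2)
    have h2 : (1 : ℝ) / 2 * (1 - 1 / 2)⁻¹ = 1 := by norm_num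
    rw [h2] at h1
    have h3 : (fun i : ℕ => ((1 : ℝ) / 2) ^ (i + 1)) = fun i => 1 / 2 * (1 / 2) ^ i := by
      funext i; rw [pow_succ]; ring
    rw [h3]; exact h1
  have hs : Summable fun j => tj j z := by
    rw [← summable_nat_add_iff (k + 1)]
    exact Summable.of_norm_bounded hg.summable hb
  refine ⟨hs, ?_⟩
  have e : lac z - ∑ j ∈ Finset.range (k + 1), tj j z = ∑' i, tj (i + (k + 1)) z := by
    unfold lac
    rw [← hs.sum_add_tsum_nat_add (k + 1)]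
    ring
  rw [e]
  exact tsum_of_norm_bounded hg hb

lemma tj_summable_norm (z : ℂ) : Summable fun j => ‖tj j z‖ := by
  obtain ⟨k, hk, -⟩ := exists_NN (2 * ‖z‖)
  rw [← summable_nat_add_iff (k + 1)]
  refine Summable.of_nonneg_of_le (fun _ => norm_nonneg _) (fun i => ?_)
    (summable_geometric_of_lt_one (r := (1 : ℝ) / 2) (by norm_num) (by norm_num))
  have h1 : 2 * ‖z‖ ≤ NN (i + (k + 1)) := hk.trans (by exact_mod_cast NN_mono (by omega))
  exact (tj_small h1).trans (pow_le_pow_of_le_one (by norm_num) (by norm_num) (by omega))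

lemma lac_diff : Differentiable ℂ lac := by
  intro z
  have h := Complex.differentiableOn_tsum_of_summable_norm (F := tj) (U := ball (0 : ℂ) (‖z‖ + 1))
    (u := fun j => ‖tj j ((‖z‖ + 1 : ℝ) : ℂ)‖) (tj_summable_norm _) (fun j => by
      unfold tj; fun_prop) isOpen_ball (fun j w hw => by
      rw [mem_ball_zero_iff] at hw
      rw [tj_norm, tj_norm, Complex.norm_real, Real.norm_of_nonneg (by positivity)]
      gcongr)
  exact (h z (by rw [mem_ball_zero_iff]; linarith)).differentiableAt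
    (isOpen_ball.mem_nhds (by rw [mem_ball_zero_iff]; linarith))

lemma lac_ub {ε : ℝ} (hε : 0 < ε) : ∃ C > 0, ∀ z, ‖lac z‖ ≤ C * Real.exp (‖z‖ / Real.exp 1 + ε * ‖z‖) := by
  refine ⟨3 + 2 / ε, by positivity, fun z => ?_⟩
  obtain ⟨k, hk, hk2⟩ := exists_NN (2 * ‖z‖)
  have hn : 0 ≤ ‖z‖ := norm_nonneg z
  rw [abs_of_nonneg (by positivity)] at hk2
  obtain ⟨-, h1⟩ := lac_tail hk
  have h2 : ‖∑ j ∈ Finset.range (k + 1), tj j z‖ ≤ (k + 1) * Real.exp (‖z‖ / Real.exp 1) := by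
    refine (norm_sum_le _ _).trans ?_
    calc ∑ j ∈ Finset.range (k + 1), ‖tj j z‖ ≤ ∑ j ∈ Finset.range (k + 1), Real.exp (‖z‖ / Real.exp 1) :=
          Finset.sum_le_sum fun j _ => tj_le j z
      _ = _ := by rw [Finset.sum_const, Finset.card_range, nsmul_eq_mul]; push_cast; ring
  have h3 : ‖lac z‖ ≤ 1 + (k + 1) * Real.exp (‖z‖ / Real.exp 1) := by
    calc ‖lac z‖ = ‖(lac z - ∑ j ∈ Finset.range (k + 1), tj j z) +
          ∑ j ∈ Finset.range (k + 1), tj j z‖ := by ring_nf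
      _ ≤ _ := (norm_add_le _ _).trans (add_le_add h1 h2)
  have h4 : 1 ≤ Real.exp (‖z‖ / Real.exp 1) := Real.one_le_exp (by positivity)
  have h5 : ‖lac z‖ ≤ (2 * ‖z‖ + 3) * Real.exp (‖z‖ / Real.exp 1) := by nlinarith
  have h6 : 2 * ‖z‖ + 3 ≤ (3 + 2 / ε) * Real.exp (ε * ‖z‖) := by
    have h7 := Real.add_one_le_exp (ε * ‖z‖)
    have h8 : 2 * ‖z‖ + 3 ≤ (3 + 2 / ε) * (ε * ‖z‖ + 1) := by
      have : (3 + 2 / ε) * (ε * ‖z‖ + 1) = 3 + 2 / ε + 3 * ε * ‖z‖ + 2 * ‖z‖ := by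
        field_simp; ring
      rw [this]
      have : 0 ≤ 2 / ε := by positivity
      have : 0 ≤ 3 * ε * ‖z‖ := by positivity
      linarith
    exact h8.trans (by gcongr)
  calc ‖lac z‖ ≤ (2 * ‖z‖ + 3) * Real.exp (‖z‖ / Real.exp 1) := h5
    _ ≤ ((3 + 2 / ε) * Real.exp (ε * ‖z‖)) * Real.exp (‖z‖ / Real.exp 1) := by gcongr
    _ = _ := by rw [Real.exp_add]; ring

lemma NN_tendsto : Tendsto (fun m => (NN m : ℝ)) atTop atTop := by
  refine tendsto_atTop_mono (fun m => ?_) tendsto_natCast_atTop_atTop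
  have : ((m + 1 : ℕ) : ℝ) ≤ NN m := by exact_mod_cast NN_gt m
  push_cast at this
  linarith

lemma log_small {c : ℝ} (hc : 0 < c) : ∀ᶠ x : ℝ in atTop, Real.log x ≤ c * x := by
  have h := Real.isLittleO_log_id_atTop.bound hc
  filter_upwards [h, eventually_ge_atTop 0] with x hx h0
  rw [id, Real.norm_of_nonneg h0] at hx
  exact (le_abs_self _).trans hx

/-- small on the gaps -/
lemma lac_gap {ε : ℝ} (hε : 0 < ε) : ∀ᶠ m : ℕ in atTop, ∀ z : ℂ, (NN m : ℝ) ^ 3 / 4 ≤ ‖z‖ →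
    ‖z‖ ≤ 4 * (NN m : ℝ) ^ 3 → ‖lac z‖ ≤ Real.exp (ε * ‖z‖) := by
  have hev : ∀ᶠ x : ℝ in atTop, x + 1 + x ^ 2 * Real.log (4 * x ^ 3) ≤ ε / 4 * x ^ 3 := by
    have hlog := log_small (c := ε / 48) (by positivity)
    filter_upwards [hlog, eventually_ge_atTop 1, eventually_ge_atTop (48 * Real.log 4 / ε),
      eventually_ge_atTop (24 / ε)] with x h1 h2 h3 h4
    have hx0 : 0 < x := by linarith
    have h5 : Real.log (4 * x ^ 3) = Real.log 4 + 3 * Real.log x := by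
      rw [Real.log_mul (by norm_num) (by positivity), Real.log_pow]; norm_num
    rw [div_le_iff₀ hε] at h3 h4
    have h6 : Real.log 4 ≤ ε / 48 * x := by linarith
    have h7 : Real.log (4 * x ^ 3) ≤ ε / 12 * x := by rw [h5]; linarith
    have h8 : x ^ 2 * Real.log (4 * x ^ 3) ≤ ε / 12 * x ^ 3 := by
      calc x ^ 2 * Real.log (4 * x ^ 3) ≤ x ^ 2 * (ε / 12 * x) := by gcongr
        _ = _ := by ring
    have h9 : x + 1 ≤ ε / 12 * x ^ 3 := by
      have h10 : 2 * x ≤ ε / 12 * x * x := by nlinarith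
      have h11 : ε / 12 * x * x ≤ ε / 12 * x ^ 3 := by
        have : x * x ≤ x ^ 3 := by nlinarith [mul_pos hx0 hx0]
        nlinarith
      linarith
    have h12 : 0 ≤ ε / 12 * x ^ 3 := by positivity
    linarith
  filter_upwards [NN_tendsto.eventually hev, NN_tendsto.eventually_ge_atTop 8] with m hm hm8 z hz1 hz2
  set x : ℝ := (NN m : ℝ) with hx
  have hx0 : 0 < x := by linarith
  have hX1 : 1 ≤ ‖z‖ := by
    refine le_trans ?_ hz1
    have : (8 : ℝ) ^ 3 ≤ x ^ 3 := pow_le_pow_left₀ (by norm_num) hm8 3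
    linarith
  have e1 : ((NN (m + 1) : ℕ) : ℝ) = x ^ 2 := by rw [NN_succ]; push_cast; rfl
  have e2 : ((NN (m + 1 + 1) : ℕ) : ℝ) = x ^ 4 := by rw [NN_succ]; push_cast; rw [e1]; ring
  have h2z : 2 * ‖z‖ ≤ NN (m + 1 + 1) := by
    rw [e2]
    have : 8 * x ^ 3 ≤ x ^ 4 := by
      have h3 : x ^ 4 = x * x ^ 3 := by ring
      rw [h3]
      have : 0 ≤ x ^ 3 := by positivity
      nlinarith
    linarith
  obtain ⟨-, h1⟩ := lac_tail h2z
  have h2 : ‖∑ j ∈ Finset.range (m + 1 + 1), tj j z‖ ≤ (m + 2) * ‖z‖ ^ NN (m + 1) := by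
    refine (norm_sum_le _ _).trans ?_
    calc ∑ j ∈ Finset.range (m + 1 + 1), ‖tj j z‖ ≤
        ∑ j ∈ Finset.range (m + 1 + 1), ‖z‖ ^ NN (m + 1) :=
          Finset.sum_le_sum fun j hj => tj_le_pow (by
            rw [Finset.mem_range] at hj; omega) hX1
      _ = _ := by rw [Finset.sum_const, Finset.card_range, nsmul_eq_mul]; push_cast; ring
  have h3 : ‖lac z‖ ≤ 1 + (m + 2) * ‖z‖ ^ NN (m + 1) := by
    calc ‖lac z‖ = ‖(lac z - ∑ j ∈ Finset.range (m + 1 + 1), tj j z) +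
          ∑ j ∈ Finset.range (m + 1 + 1), tj j z‖ := by ring_nf
      _ ≤ _ := (norm_add_le _ _).trans (add_le_add h1 h2)
  have hmx : (m : ℝ) + 1 ≤ x := by
    have : ((m + 1 : ℕ) : ℝ) ≤ NN m := by exact_mod_cast NN_gt m
    push_cast at this; exact this
  have h4 : ‖z‖ ^ NN (m + 1) ≤ Real.exp (x ^ 2 * Real.log (4 * x ^ 3)) := by
    calc ‖z‖ ^ NN (m + 1) ≤ (4 * x ^ 3) ^ NN (m + 1) := pow_le_pow_left₀ (norm_nonneg _) hz2 _
      _ = Real.exp (x ^ 2 * Real.log (4 * x ^ 3)) := by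
        rw [← e1, Real.exp_nat_mul, Real.exp_log (by positivity)]
  have h5 : 1 ≤ ‖z‖ ^ NN (m + 1) := one_le_pow₀ hX1
  have h6 : ‖lac z‖ ≤ (x + 2) * Real.exp (x ^ 2 * Real.log (4 * x ^ 3)) := by
    have h7 : ‖lac z‖ ≤ (x + 2) * ‖z‖ ^ NN (m + 1) := by nlinarith
    exact h7.trans (by gcongr)
  have h8 : x + 2 ≤ Real.exp (x + 1) := by
    have := Real.add_one_le_exp (x + 1); linarith
  calc ‖lac z‖ ≤ (x + 2) * Real.exp (x ^ 2 * Real.log (4 * x ^ 3)) := h6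
    _ ≤ Real.exp (x + 1) * Real.exp (x ^ 2 * Real.log (4 * x ^ 3)) := by gcongr
    _ = Real.exp (x + 1 + x ^ 2 * Real.log (4 * x ^ 3)) := by rw [← Real.exp_add]
    _ ≤ Real.exp (ε / 4 * x ^ 3) := Real.exp_le_exp.mpr hm
    _ ≤ Real.exp (ε * ‖z‖) := Real.exp_le_exp.mpr (by nlinarith)

/-- large on some circles -/
lemma lac_peak {ε : ℝ} (hε : 0 < ε) : ∀ᶠ m : ℕ in atTop, ∀ z : ℂ,
    ‖z‖ = Real.exp 1 * NN (m + 1) →
      Real.exp (‖z‖ / Real.exp 1 - ε * ‖z‖) ≤ ‖lac z‖ := by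
  have he1 : (2 : ℝ) ≤ Real.exp 1 := by
    have := Real.add_one_le_exp (1 : ℝ); linarith
  have he3 : Real.exp 1 < 3 := Real.exp_one_lt_d9.trans (by norm_num)
  have hev : ∀ᶠ x : ℝ in atTop, 1 + x ^ 2 * (Real.exp 1 * x ^ 2) ^ (x : ℝ) ≤ Real.exp (x ^ 2 / 2) := by
    have hlog := log_small (c := 1 / 16) (by norm_num)
    filter_upwards [hlog, eventually_ge_atTop 32] with x h1 h2
    have hx0 : 0 < x := by linarith
    have h3 : (Real.exp 1 * x ^ 2) ^ (x : ℝ) = Real.exp (x * (1 + 2 * Real.log x)) := by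
      rw [Real.rpow_def_of_pos (by positivity), Real.log_mul (by positivity) (by positivity),
        Real.log_exp, Real.log_pow]
      congr 1; push_cast; ring
    have h4 : x ^ 2 ≤ Real.exp (2 * Real.log x) := by
      rw [show (2 : ℝ) * Real.log x = ((2 : ℕ) : ℝ) * Real.log x by norm_num, Real.exp_nat_mul,
        Real.exp_log hx0]
    have h5 : 1 ≤ Real.exp (2 * Real.log x + x * (1 + 2 * Real.log x)) := by
      apply Real.one_le_exp
      have := Real.log_nonneg (by linarith : (1 : ℝ) ≤ x)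
      positivity
    have h6 : (2 : ℝ) ≤ Real.exp 1 := he1
    calc 1 + x ^ 2 * (Real.exp 1 * x ^ 2) ^ (x : ℝ) ≤
        Real.exp (2 * Real.log x + x * (1 + 2 * Real.log x)) +
          Real.exp (2 * Real.log x) * Real.exp (x * (1 + 2 * Real.log x)) := by
          rw [h3]; gcongr
      _ = 2 * Real.exp (2 * Real.log x + x * (1 + 2 * Real.log x)) := by
          rw [← Real.exp_add]; ring
      _ ≤ Real.exp 1 * Real.exp (2 * Real.log x + x * (1 + 2 * Real.log x)) := by gcongr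
      _ = Real.exp (1 + (2 * Real.log x + x * (1 + 2 * Real.log x))) := by rw [← Real.exp_add]
      _ ≤ Real.exp (x ^ 2 / 2) := by
          apply Real.exp_le_exp.mpr
          have h7 : x * (2 * Real.log x) ≤ x * (2 * (1 / 16 * x)) := by gcongr
          nlinarith
  have hev2 : ∀ᶠ x : ℝ in atTop, 1 ≤ ε * (Real.exp 1 * x ^ 2) := by
    filter_upwards [eventually_ge_atTop (1 / ε), eventually_ge_atTop 1] with x h1 h2
    rw [div_le_iff₀ hε] at h1
    have h3 : x ≤ Real.exp 1 * x ^ 2 := by nlinarith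
    calc 1 ≤ x * ε := h1
      _ ≤ (Real.exp 1 * x ^ 2) * ε := by gcongr
      _ = _ := by ring
  filter_upwards [NN_tendsto.eventually hev, NN_tendsto.eventually hev2,
    NN_tendsto.eventually_ge_atTop 8] with m hm hm2 hm8 z hz
  set x : ℝ := (NN m : ℝ) with hx
  have hx0 : 0 < x := by linarith
  have e1 : ((NN (m + 1) : ℕ) : ℝ) = x ^ 2 := by rw [NN_succ]; push_cast; rfl
  have e2 : ((NN (m + 1 + 1) : ℕ) : ℝ) = x ^ 4 := by rw [NN_succ]; push_cast; rw [e1]; ring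
  rw [e1] at hz
  have hX1 : 1 ≤ ‖z‖ := by rw [hz]; nlinarith
  have h2z : 2 * ‖z‖ ≤ NN (m + 1 + 1) := by
    rw [e2, hz]
    have h3 : x ^ 4 = x ^ 2 * x ^ 2 := by ring
    rw [h3]
    have : 64 ≤ x ^ 2 := by nlinarith
    nlinarith
  obtain ⟨-, h1⟩ := lac_tail h2z
  rw [Finset.sum_range_succ] at h1
  have h2 : ‖∑ j ∈ Finset.range (m + 1), tj j z‖ ≤ (m + 1) * ‖z‖ ^ NN m := by
    refine (norm_sum_le _ _).trans ?_
    calc ∑ j ∈ Finset.range (m + 1), ‖tj j z‖ ≤ ∑ j ∈ Finset.range (m + 1), ‖z‖ ^ NN m :=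
          Finset.sum_le_sum fun j hj => tj_le_pow (by
            rw [Finset.mem_range] at hj; omega) hX1
      _ = _ := by rw [Finset.sum_const, Finset.card_range, nsmul_eq_mul]; push_cast; ring
  have h3 : ‖tj (m + 1) z‖ = Real.exp (x ^ 2) := by
    rw [tj_norm, hz, e1]
    have : Real.exp 1 * x ^ 2 / x ^ 2 = Real.exp 1 := by field_simp
    rw [this, ← Real.exp_nat_mul, e1, mul_one]
  have h4 : ‖tj (m + 1) z‖ ≤ ‖lac z‖ + (1 + (m + 1) * ‖z‖ ^ NN m) := by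
    have e : tj (m + 1) z = lac z - (∑ j ∈ Finset.range (m + 1), tj j z) -
      (lac z - (∑ j ∈ Finset.range (m + 1), tj j z + tj (m + 1) z)) := by ring
    rw [e]
    refine (norm_sub_le _ _).trans ?_
    have := norm_sub_le (lac z) (∑ j ∈ Finset.range (m + 1), tj j z)
    linarith
  have hmx : (m : ℝ) + 1 ≤ x := by
    have : ((m + 1 : ℕ) : ℝ) ≤ NN m := by exact_mod_cast NN_gt m
    push_cast at this; exact this
  have h5 : ((m : ℝ) + 1) * ‖z‖ ^ NN m ≤ x ^ 2 * (Real.exp 1 * x ^ 2) ^ (x : ℝ) := by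
    rw [hz]
    have h6 : (Real.exp 1 * x ^ 2) ^ (x : ℝ) = (Real.exp 1 * x ^ 2) ^ NN m := by
      rw [hx, Real.rpow_natCast]
    rw [h6]
    have : (m : ℝ) + 1 ≤ x ^ 2 := by nlinarith
    gcongr
  rw [h3] at h4
  have h7 : Real.exp (x ^ 2) ≤ ‖lac z‖ + Real.exp (x ^ 2 / 2) := by linarith
  have h8 : Real.exp (x ^ 2 / 2) ≤ Real.exp (x ^ 2) / 2 := by
    have h9 : Real.exp (x ^ 2) = Real.exp (x ^ 2 / 2) * Real.exp (x ^ 2 / 2) := by
      rw [← Real.exp_add]; ring_nf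
    have h10 : 2 ≤ Real.exp (x ^ 2 / 2) := by
      have := Real.add_one_le_exp (x ^ 2 / 2)
      nlinarith
    rw [h9]
    nlinarith [Real.exp_pos (x ^ 2 / 2)]
  have h11 : Real.exp (‖z‖ / Real.exp 1 - ε * ‖z‖) ≤ Real.exp (x ^ 2) / 2 := by
    have e3 : ‖z‖ / Real.exp 1 = x ^ 2 := by rw [hz]; field_simp
    rw [e3, Real.exp_sub, hz]
    apply div_le_div_of_nonneg_left (Real.exp_pos _).le (by norm_num)
    have := Real.add_one_le_exp (ε * (Real.exp 1 * x ^ 2))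
    linarith
  linarith

end Pool.Agent.KS6_90.CRG
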