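import Pool.Agent.KS6_90.CRG.Trans
import Pool.Agent.KS6_90.CRG.Corner
import Pool.Agent.KS6_90.CRG.Lac

set_option autoImplicit false

open Filter Topology Metric

namespace Pool.Agent.KS6_90.CRG

open Pool.Agent.Helper960.Crg

/-- `f` is negligible near the direction `w` -/
def Neg (f : ℂ → ℂ) (D : Set ℂ) (w : ℂ) : Prop :=
  ∃ κ > 0, ∃ δ > 0, ∃ R : ℝ, ∀ r ≥ R, ∀ z : ℂ, ‖z - r * w‖ ≤ δ * r →
    ‖f z‖ ≤ Real.exp (H D z - κ * r)

lemma ball_norm {z w : ℂ} {δ r : ℝ} (hr : 0 ≤ r) (h : ‖z - r * w‖ ≤ δ * r) :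
    ‖z‖ ≤ (‖w‖ + δ) * r := by
  calc ‖z‖ = ‖(z - r * w) + r * w‖ := by ring_nf
    _ ≤ ‖z - r * w‖ + ‖(r : ℂ) * w‖ := norm_add_le _ _
    _ ≤ δ * r + r * ‖w‖ := by
      rw [norm_mul, Complex.norm_real, Real.norm_of_nonneg hr]
      linarith
    _ = _ := by ring

lemma Neg_of_UB {f : ℂ → ℂ} {D K : Set ℂ} (hD : IsCompact D) (hDne : D.Nonempty) (hK : IsCompact K)
    (hKne : K.Nonempty) {w : ℂ} (hUB : UB f K) (hlt : H K w < H D w) : Neg f D w := by
  obtain ⟨σ, hσ⟩ := hD.isBounded.exists_norm_le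
  obtain ⟨τ, hτ⟩ := hK.isBounded.exists_norm_le
  have hσ0 : 0 ≤ σ := (norm_nonneg _).trans (hσ _ hDne.some_mem)
  have hτ0 : 0 ≤ τ := (norm_nonneg _).trans (hτ _ hKne.some_mem)
  set c := H D w - H K w with hc
  have hc0 : 0 < c := by linarith
  set δ := c / (8 * (σ + τ + 1)) with hδ
  have hδ0 : 0 < δ := by positivity
  set ε := c / (8 * (‖w‖ + 1 + δ)) with hε
  have hε0 : 0 < ε := by positivity
  obtain ⟨C, hC, hCb⟩ := hUB ε hε0
  have h1 : ∀ᶠ r : ℝ in atTop, C ≤ Real.exp (c / 8 * r) :=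
    (Real.tendsto_exp_atTop.comp (tendsto_id.const_mul_atTop (by positivity))).eventually_ge_atTop C
  obtain ⟨R, hR⟩ := eventually_atTop.mp (h1.and (eventually_ge_atTop 1))
  refine ⟨c / 2, by positivity, δ, hδ0, R, fun r hr z hz => ?_⟩
  obtain ⟨hrC, hr1⟩ := hR r hr
  have hr0 : 0 < r := by linarith
  have h4 := H_lip hD hDne hσ (r * w) z
  have h5 := H_lip hK hKne hτ z (r * w)
  rw [H_smul hD hDne w hr0.le] at h4
  rw [H_smul hK hKne w hr0.le] at h5
  have h6 : ‖(r : ℂ) * w - z‖ ≤ δ * r := by rw [norm_sub_rev]; exact hz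
  have h7 : σ * ‖(r : ℂ) * w - z‖ ≤ σ * (δ * r) := mul_le_mul_of_nonneg_left h6 hσ0
  have h8 : τ * ‖z - (r : ℂ) * w‖ ≤ τ * (δ * r) := mul_le_mul_of_nonneg_left hz hτ0
  have hzn := ball_norm hr0.le hz
  have h9 : ε * ‖z‖ ≤ c / 8 * r := by
    calc ε * ‖z‖ ≤ ε * ((‖w‖ + δ) * r) := by gcongr
      _ ≤ ε * ((‖w‖ + 1 + δ) * r) := by
        apply mul_le_mul_of_nonneg_left _ hε0.le
        nlinarith
      _ = c / 8 * r := by rw [hε]; field_simp
  have h10 : (σ + τ) * (δ * r) ≤ c / 8 * r := by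
    have : (σ + τ) * δ ≤ c / 8 := by
      rw [hδ]
      have h11 : (σ + τ) * (c / (8 * (σ + τ + 1))) = (c / 8) * ((σ + τ) / (σ + τ + 1)) := by
        field_simp
      rw [h11]
      have h12 : (σ + τ) / (σ + τ + 1) ≤ 1 := by
        rw [div_le_one (by positivity)]; linarith
      nlinarith
    nlinarith
  calc ‖f z‖ ≤ C * Real.exp (H K z + ε * ‖z‖) := hCb z
    _ ≤ Real.exp (c / 8 * r) * Real.exp (H K z + ε * ‖z‖) := by gcongr
    _ = Real.exp (c / 8 * r + (H K z + ε * ‖z‖)) := by rw [← Real.exp_add]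
    _ ≤ Real.exp (H D z - c / 2 * r) := by
      apply Real.exp_le_exp.mpr
      have h13 : r * H D w - r * H K w = c * r := by rw [hc]; ring
      nlinarith

lemma Neg_add {f g : ℂ → ℂ} {D : Set ℂ} {w : ℂ} (hf : Neg f D w) (hg : Neg g D w) :
    Neg (fun z => f z + g z) D w := by
  obtain ⟨κ₁, hκ₁, δ₁, hδ₁, R₁, h1⟩ := hf
  obtain ⟨κ₂, hκ₂, δ₂, hδ₂, R₂, h2⟩ := hg
  set κ := min κ₁ κ₂ with hκ
  have hκ0 : 0 < κ := lt_min hκ₁ hκ₂
  refine ⟨κ / 2, by positivity, min δ₁ δ₂, lt_min hδ₁ hδ₂, max (max R₁ R₂) (max 0 (2 / κ)),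
    fun r hr z hz => ?_⟩
  have hr1 : R₁ ≤ r := ((le_max_left _ _).trans (le_max_left _ _)).trans hr
  have hr2 : R₂ ≤ r := ((le_max_right _ _).trans (le_max_left _ _)).trans hr
  have hr0 : 0 ≤ r := ((le_max_left _ _).trans (le_max_right _ _)).trans hr
  have hr3 : 2 / κ ≤ r := ((le_max_right _ _).trans (le_max_right _ _)).trans hr
  rw [div_le_iff₀ hκ0] at hr3
  have e1 := h1 r hr1 z (hz.trans (mul_le_mul_of_nonneg_right (min_le_left _ _) hr0))
  have e2 := h2 r hr2 z (hz.trans (mul_le_mul_of_nonneg_right (min_le_right _ _) hr0))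
  have e3 : Real.exp (H D z - κ₁ * r) ≤ Real.exp (H D z - κ * r) := by
    apply Real.exp_le_exp.mpr
    have := mul_le_mul_of_nonneg_right (min_le_left κ₁ κ₂) hr0
    linarith
  have e4 : Real.exp (H D z - κ₂ * r) ≤ Real.exp (H D z - κ * r) := by
    apply Real.exp_le_exp.mpr
    have := mul_le_mul_of_nonneg_right (min_le_right κ₁ κ₂) hr0
    linarith
  have e5 : 2 * Real.exp (H D z - κ * r) ≤ Real.exp (H D z - κ / 2 * r) := by
    have h3 : (2 : ℝ) ≤ Real.exp (κ / 2 * r) := by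
      have := Real.add_one_le_exp (κ / 2 * r)
      nlinarith
    calc 2 * Real.exp (H D z - κ * r) ≤ Real.exp (κ / 2 * r) * Real.exp (H D z - κ * r) := by gcongr
      _ = _ := by rw [← Real.exp_add]; ring_nf
  calc ‖f z + g z‖ ≤ ‖f z‖ + ‖g z‖ := norm_add_le _ _
    _ ≤ 2 * Real.exp (H D z - κ * r) := by linarith
    _ ≤ _ := e5

lemma Neg_neg {f : ℂ → ℂ} {D : Set ℂ} {w : ℂ} (hf : Neg f D w) : Neg (fun z => -f z) D w := by
  obtain ⟨κ₁, hκ₁, δ₁, hδ₁, R₁, h1⟩ := hf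
  exact ⟨κ₁, hκ₁, δ₁, hδ₁, R₁, fun r hr z hz => by rw [norm_neg]; exact h1 r hr z hz⟩

lemma PL_add {f g : ℂ → ℂ} {D : Set ℂ} {w : ℂ} (hf : PL f D w) (hg : Neg g D w) :
    PL (fun z => f z + g z) D w := by
  obtain ⟨κ, hκ, δ₂, hδ₂, R₂, h2⟩ := hg
  intro δ hδ η hη
  set η' := min (η / 2) (κ / 2) with hη'
  have hη'0 : 0 < η' := lt_min (by positivity) (by positivity)
  obtain ⟨R₁, h1⟩ := hf (min δ δ₂) (lt_min hδ hδ₂) η' hη'0
  refine ⟨max (max R₁ R₂) (max 0 (max (2 / κ) (2 / η))), fun r hr => ?_⟩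
  have hr1 : R₁ ≤ r := ((le_max_left _ _).trans (le_max_left _ _)).trans hr
  have hr2 : R₂ ≤ r := ((le_max_right _ _).trans (le_max_left _ _)).trans hr
  have hr0 : 0 ≤ r := ((le_max_left _ _).trans (le_max_right _ _)).trans hr
  have hr3 : 2 / κ ≤ r := (le_max_left _ _).trans ((le_max_right _ _).trans ((le_max_right _ _).trans hr))
  have hr4 : 2 / η ≤ r := (le_max_right _ _).trans ((le_max_right _ _).trans ((le_max_right _ _).trans hr))
  rw [div_le_iff₀ hκ] at hr3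
  rw [div_le_iff₀ hη] at hr4
  obtain ⟨z, hz1, hz2⟩ := h1 r hr1
  refine ⟨z, hz1.trans (mul_le_mul_of_nonneg_right (min_le_left _ _) hr0), ?_⟩
  have e2 := h2 r hr2 z (hz1.trans (mul_le_mul_of_nonneg_right (min_le_right _ _) hr0))
  have h3 : η' * r ≤ κ / 2 * r := mul_le_mul_of_nonneg_right (min_le_right _ _) hr0
  have h4 : η' * r ≤ η / 2 * r := mul_le_mul_of_nonneg_right (min_le_left _ _) hr0
  have e3 : 2 * Real.exp (H D z - κ * r) ≤ Real.exp (H D z - η' * r) := by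
    have h5 : (2 : ℝ) ≤ Real.exp (κ / 2 * r) := by
      have := Real.add_one_le_exp (κ / 2 * r)
      nlinarith
    calc 2 * Real.exp (H D z - κ * r) ≤ Real.exp (κ / 2 * r) * Real.exp (H D z - κ * r) := by gcongr
      _ = Real.exp (H D z - κ / 2 * r) := by rw [← Real.exp_add]; ring_nf
      _ ≤ _ := Real.exp_le_exp.mpr (by linarith)
  have e4 : 2 * Real.exp (H D z - η * r) ≤ Real.exp (H D z - η' * r) := by
    have h5 : (2 : ℝ) ≤ Real.exp (η / 2 * r) := by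
      have := Real.add_one_le_exp (η / 2 * r)
      nlinarith
    calc 2 * Real.exp (H D z - η * r) ≤ Real.exp (η / 2 * r) * Real.exp (H D z - η * r) := by gcongr
      _ = Real.exp (H D z - η / 2 * r) := by rw [← Real.exp_add]; ring_nf
      _ ≤ _ := Real.exp_le_exp.mpr (by linarith)
  have h6 : ‖f z‖ - ‖g z‖ ≤ ‖f z + g z‖ := by
    have := norm_sub_le (f z + g z) (g z)
    rw [add_sub_cancel_right] at this
    linarith
  linarith

lemma PL_change {f : ℂ → ℂ} {D K : Set ℂ} (hD : IsCompact D) (hDne : D.Nonempty) (hK : IsCompact K)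
    (hKne : K.Nonempty) {w : ℂ} (hPL : PL f K w) (heq : H D w ≤ H K w) : PL f D w := by
  obtain ⟨σ, hσ⟩ := hD.isBounded.exists_norm_le
  obtain ⟨τ, hτ⟩ := hK.isBounded.exists_norm_le
  have hσ0 : 0 ≤ σ := (norm_nonneg _).trans (hσ _ hDne.some_mem)
  have hτ0 : 0 ≤ τ := (norm_nonneg _).trans (hτ _ hKne.some_mem)
  intro δ hδ η hη
  set δ' := min δ (η / (2 * (σ + τ + 1))) with hδ'
  have hδ'0 : 0 < δ' := lt_min hδ (by positivity)
  obtain ⟨R, hR⟩ := hPL δ' hδ'0 (η / 2) (by positivity)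
  refine ⟨max R 0, fun r hr => ?_⟩
  have hr1 : R ≤ r := (le_max_left _ _).trans hr
  have hr0 : 0 ≤ r := (le_max_right _ _).trans hr
  obtain ⟨z, hz1, hz2⟩ := hR r hr1
  refine ⟨z, hz1.trans (mul_le_mul_of_nonneg_right (min_le_left _ _) hr0), le_trans ?_ hz2⟩
  apply Real.exp_le_exp.mpr
  have h4 := H_lip hD hDne hσ z (r * w)
  have h5 := H_lip hK hKne hτ (r * w) z
  rw [H_smul hD hDne w hr0] at h4
  rw [H_smul hK hKne w hr0] at h5
  have h6 : ‖(r : ℂ) * w - z‖ ≤ δ' * r := by rw [norm_sub_rev]; exact hz1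
  have h7 : τ * ‖(r : ℂ) * w - z‖ ≤ τ * (δ' * r) := mul_le_mul_of_nonneg_left h6 hτ0
  have h8 : σ * ‖z - (r : ℂ) * w‖ ≤ σ * (δ' * r) := mul_le_mul_of_nonneg_left hz1 hσ0
  have h10 : (σ + τ) * (δ' * r) ≤ η / 2 * r := by
    have : (σ + τ) * δ' ≤ η / 2 := by
      calc (σ + τ) * δ' ≤ (σ + τ) * (η / (2 * (σ + τ + 1))) := by
            apply mul_le_mul_of_nonneg_left (min_le_right _ _) (by linarith)
        _ = (η / 2) * ((σ + τ) / (σ + τ + 1)) := by field_simp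
        _ ≤ η / 2 * 1 := by
            apply mul_le_mul_of_nonneg_left _ (by positivity)
            rw [div_le_one (by positivity)]; linarith
        _ = η / 2 := by ring
    nlinarith
  nlinarith [mul_le_mul_of_nonneg_left heq hr0]

lemma UB_add {f g : ℂ → ℂ} {D : Set ℂ} (hf : UB f D) (hg : UB g D) : UB (fun z => f z + g z) D := by
  intro ε hε
  obtain ⟨C, hC, h1⟩ := hf ε hε
  obtain ⟨C', hC', h2⟩ := hg ε hε
  refine ⟨C + C', by positivity, fun z => (norm_add_le _ _).trans ?_⟩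
  rw [add_mul]
  exact add_le_add (h1 z) (h2 z)

lemma UB_mono {f : ℂ → ℂ} {D K : Set ℂ} (hf : UB f K) (h : ∀ z, H K z ≤ H D z) : UB f D := by
  intro ε hε
  obtain ⟨C, hC, h1⟩ := hf ε hε
  refine ⟨C, hC, fun z => (h1 z).trans ?_⟩
  have := h z
  gcongr

lemma H_single (lam z : ℂ) : H {lam} z = (lam * z).re := by
  unfold H
  simp

lemma UB_exp (lam : ℂ) : UB (fun z => Complex.exp (lam * z)) {lam} := by
  intro ε hε
  refine ⟨1, one_pos, fun z => ?_⟩
  rw [Complex.norm_exp, one_mul, H_single]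
  apply Real.exp_le_exp.mpr
  have : 0 ≤ ε * ‖z‖ := by positivity
  linarith

lemma PL_exp (lam w : ℂ) : PL (fun z => Complex.exp (lam * z)) {lam} w := by
  intro δ hδ η hη
  refine ⟨0, fun r hr => ⟨r * w, ?_, ?_⟩⟩
  · rw [sub_self, norm_zero]; positivity
  · rw [Complex.norm_exp, H_single]
    apply Real.exp_le_exp.mpr
    have : 0 ≤ η * r := by positivity
    linarith

lemma H_ball (al : ℂ) {σ : ℝ} (hσ : 0 ≤ σ) (z : ℂ) :
    H (closedBall al σ) z = (al * z).re + σ * ‖z‖ := by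
  apply le_antisymm
  · apply H_le ⟨al, mem_closedBall_self hσ⟩
    intro ζ hζ
    rw [mem_closedBall, dist_eq_norm] at hζ
    have e : ζ * z = al * z + (ζ - al) * z := by ring
    rw [e, Complex.add_re]
    have h1 : ((ζ - al) * z).re ≤ ‖(ζ - al) * z‖ := Complex.re_le_norm _
    rw [norm_mul] at h1
    have h2 : ‖ζ - al‖ * ‖z‖ ≤ σ * ‖z‖ := by gcongr
    linarith
  · rcases eq_or_ne z 0 with rfl | hz
    · rw [H_zero (isCompact_closedBall _ _) ⟨al, mem_closedBall_self hσ⟩]; simp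
    · have hzn : 0 < ‖z‖ := norm_pos_iff.mpr hz
      have hmem : al + ((σ / ‖z‖ : ℝ) : ℂ) * (starRingEnd ℂ) z ∈ closedBall al σ := by
        rw [mem_closedBall, dist_eq_norm, add_sub_cancel_left, norm_mul, Complex.norm_real,
          RCLike.norm_conj, Real.norm_of_nonneg (by positivity)]
        apply le_of_eq; field_simp
      have h1 := le_H (isCompact_closedBall _ _) hmem z
      have e : (al + ((σ / ‖z‖ : ℝ) : ℂ) * (starRingEnd ℂ) z) * z =
          al * z + ((σ / ‖z‖ * Complex.normSq z : ℝ) : ℂ) := by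
        push_cast
        rw [← Complex.mul_conj]; ring
      rw [e, Complex.add_re, Complex.ofReal_re, Complex.normSq_eq_norm_sq] at h1
      have e2 : σ / ‖z‖ * ‖z‖ ^ 2 = σ * ‖z‖ := by field_simp
      rw [e2] at h1
      exact h1

lemma H_mono {D K : Set ℂ} (hD : IsCompact D) (hKne : K.Nonempty) (h : K ⊆ D) (z : ℂ) :
    H K z ≤ H D z := H_le hKne (fun _ hζ => le_H hD (h hζ) z)

lemma T_add {f g : ℂ → ℂ} {D : Set ℂ} {σ ρ : ℝ} {c : ℕ → ℂ}
    (hf : Differentiable ℂ f) (hg : Differentiable ℂ g) (hD : IsCompact D) (hne : D.Nonempty)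
    (hUBf : UB f D) (hUBg : UB g D) (hσ : ∀ ζ ∈ D, ‖ζ‖ ≤ σ) (hσρ : σ < ρ) (hc : Dec c ρ) (z : ℂ) :
    T c (fun z => f z + g z) z = T c f z + T c g z := by
  have h1 := summable_T hf hD hne hUBf hσ hσρ hc z
  have h2 := summable_T hg hD hne hUBg hσ hσρ hc z
  unfold T
  rw [← h1.tsum_add h2]
  congr 1
  funext k
  have h3 : iteratedDeriv k (f + g) z = iteratedDeriv k f z + iteratedDeriv k g z :=
    iteratedDeriv_add ((hf.analyticAt z).contDiffAt) ((hg.analyticAt z).contDiffAt)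
  have h4 : (fun z => f z + g z) = f + g := rfl
  rw [h4, h3, mul_add]

end Pool.Agent.KS6_90.CRG
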