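import Pool.Agent.KS6_90.CRG.Hpl

set_option autoImplicit false

open Filter Topology Metric

namespace Pool.Agent.KS6_90.CRG

open Pool.Agent.Helper960.Crg

lemma crg_data {f : ℂ → ℂ} (hf : CRG f) : Differentiable ℂ f ∧ IsCompact (conjDiagram f) ∧
    Convex ℝ (conjDiagram f) ∧ (conjDiagram f).Nonempty ∧ UB f (conjDiagram f) ∧
    ∀ u, PL f (conjDiagram f) u := by
  obtain ⟨⟨hfd, A, B, hA⟩, -, h, hh, c, ρ, hρ, hthin, hreg⟩ := hf
  obtain ⟨hcomp, hconv, hne, hH⟩ := polya (h := h) hfd hA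
    (fun θ b hb => rb_of_indicator hfd (hh θ) hb) (fun θ b hb => indicator_le_of_rb (hh θ) hb)
  set D : Set ℂ := conjDiagram f with hD
  have hT : Thin c ρ := ⟨hρ, hthin⟩
  have hR : Reg f D c ρ := by
    intro ε hε
    obtain ⟨R₀, hR₀⟩ := hreg ε hε
    refine ⟨R₀, fun w hw hj => ?_⟩
    have h1 := hR₀ ‖w‖ hw w.arg (by
      intro j
      rw [Complex.norm_mul_exp_arg_mul_I]
      exact hj j)
    rw [Complex.norm_mul_exp_arg_mul_I] at h1
    rw [H_polar hcomp hne w, hH]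
    have e1 : ‖w‖ * h w.arg - ε * ‖w‖ = (h w.arg - ε) * ‖w‖ := by ring
    have e2 : ‖w‖ * h w.arg + ε * ‖w‖ = (h w.arg + ε) * ‖w‖ := by ring
    rw [e1, e2]
    exact h1
  exact ⟨hfd, hcomp, hconv, hne, reg_UB hfd hcomp hne hT hR, reg_PL hT hR⟩

/-- comparison of two diagrams -/
lemma H_le_of {f : ℂ → ℂ} {D K : Set ℂ} (hD : IsCompact D) (hDne : D.Nonempty) (hK : IsCompact K)
    (hKne : K.Nonempty) {u : ℂ} (hPL : PL f D u) (hUB : UB f K) : H D u ≤ H K u := by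
  obtain ⟨σ, hσ⟩ := hD.isBounded.exists_norm_le
  obtain ⟨τ, hτ⟩ := hK.isBounded.exists_norm_le
  have hσ0 : 0 ≤ σ := (norm_nonneg _).trans (hσ _ hDne.some_mem)
  have hτ0 : 0 ≤ τ := (norm_nonneg _).trans (hτ _ hKne.some_mem)
  apply le_of_forall_pos_le_add
  intro ε hε
  set δ := ε / (8 * (σ + τ + 1)) with hδ
  have hδ0 : 0 < δ := by positivity
  set ε' := ε / (8 * (‖u‖ + 1 + δ)) with hε'
  have hε'0 : 0 < ε' := by positivity
  obtain ⟨C, hC, hCb⟩ := hUB ε' hε'0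
  obtain ⟨R, hR⟩ := hPL δ hδ0 (ε / 8) (by positivity)
  obtain ⟨r, hr, hr1, hrC⟩ : ∃ r, R ≤ r ∧ 1 ≤ r ∧ C ≤ Real.exp (ε / 8 * r) := by
    have h1 : ∀ᶠ r : ℝ in atTop, C ≤ Real.exp (ε / 8 * r) :=
      (Real.tendsto_exp_atTop.comp (tendsto_id.const_mul_atTop (by positivity))).eventually_ge_atTop C
    obtain ⟨r, h2, h3, h4⟩ := (h1.and ((eventually_ge_atTop R).and (eventually_ge_atTop 1))).exists
    exact ⟨r, h3, h4, h2⟩
  have hr0 : 0 < r := by linarith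
  obtain ⟨w, hw1, hw2⟩ := hR r hr
  have h1 := hw2.trans (hCb w)
  have h2 : Real.exp (H D w - ε / 8 * r) ≤ Real.exp (ε / 8 * r + (H K w + ε' * ‖w‖)) := by
    rw [Real.exp_add]
    exact h1.trans (mul_le_mul_of_nonneg_right hrC (Real.exp_pos _).le)
  have h3 := Real.exp_le_exp.mp h2
  have hwn : ‖w‖ ≤ (‖u‖ + δ) * r := by
    calc ‖w‖ = ‖(w - r * u) + r * u‖ := by ring_nf
      _ ≤ ‖w - r * u‖ + ‖(r : ℂ) * u‖ := norm_add_le _ _
      _ ≤ δ * r + r * ‖u‖ := by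
        rw [norm_mul, Complex.norm_real, Real.norm_of_nonneg hr0.le]
        linarith
      _ = _ := by ring
  have h4 := H_lip hD hDne hσ (r * u) w
  have h5 := H_lip hK hKne hτ w (r * u)
  rw [H_smul hD hDne u hr0.le] at h4
  rw [H_smul hK hKne u hr0.le] at h5
  have h6 : ‖(r : ℂ) * u - w‖ ≤ δ * r := by rw [norm_sub_rev]; exact hw1
  have h7 : σ * ‖(r : ℂ) * u - w‖ ≤ σ * (δ * r) := mul_le_mul_of_nonneg_left h6 hσ0
  have h8 : τ * ‖w - (r : ℂ) * u‖ ≤ τ * (δ * r) := mul_le_mul_of_nonneg_left hw1 hτ0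
  have h9 : ε' * ‖w‖ ≤ ε / 8 * r := by
    calc ε' * ‖w‖ ≤ ε' * ((‖u‖ + δ) * r) := by gcongr
      _ ≤ ε' * ((‖u‖ + 1 + δ) * r) := by
        apply mul_le_mul_of_nonneg_left _ hε'0.le
        nlinarith
      _ = ε / 8 * r := by rw [hε']; field_simp
  have h10 : (σ + τ) * (δ * r) ≤ ε / 8 * r := by
    have : (σ + τ) * δ ≤ ε / 8 := by
      rw [hδ]
      have h11 : (σ + τ) * (ε / (8 * (σ + τ + 1))) = (ε / 8) * ((σ + τ) / (σ + τ + 1)) := by
        field_simp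
      rw [h11]
      have h12 : (σ + τ) / (σ + τ + 1) ≤ 1 := by
        rw [div_le_one (by positivity)]; linarith
      nlinarith
    nlinarith
  have h13 : r * H D u ≤ r * (H K u + ε) := by nlinarith
  exact le_of_mul_le_mul_left h13 hr0

lemma subset_of_H {D K : Set ℂ} (hD : IsCompact D) (hK : IsCompact K) (hKc : Convex ℝ K)
    (hKne : K.Nonempty) (h : ∀ u, H D u ≤ H K u) : D ⊆ K := by
  intro ζ hζ
  by_contra hcon
  obtain ⟨L, s, hL1, hL2⟩ := geometric_hahn_banach_closed_point hKc hK.isClosed hcon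
  set v : ℂ := (L 1 : ℂ) - (L Complex.I : ℂ) * Complex.I with hv
  have hLv : ∀ z : ℂ, L z = (z * v).re := by
    intro z
    have h1 : z = z.re • (1 : ℂ) + z.im • Complex.I := by
      simp [Complex.re_add_im]
    conv_lhs => rw [h1]
    rw [map_add, map_smul, map_smul, hv]
    simp only [smul_eq_mul, Complex.mul_re, Complex.sub_re, Complex.ofReal_re, Complex.sub_im,
      Complex.ofReal_im, Complex.mul_im, Complex.I_re, Complex.I_im]
    ring
  have h1 : H K v ≤ s := H_le hKne (fun ξ hξ => by rw [← hLv]; exact (hL1 ξ hξ).le)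
  have h2 : (ζ * v).re ≤ H D v := le_H hD hζ v
  rw [hLv] at hL2
  linarith [h v]

lemma crg_diag {f : ℂ → ℂ} {D : Set ℂ} (hf : Differentiable ℂ f) (hD : IsCompact D)
    (hconv : Convex ℝ D) (hne : D.Nonempty) (hUB : UB f D) (hPL : ∀ u, PL f D u) :
    CRG f ∧ conjDiagram f = D := by
  have hcrg := crg_of hf hD hne hUB hPL
  obtain ⟨-, h1, h2, h3, h4, h5⟩ := crg_data hcrg
  refine ⟨hcrg, Set.Subset.antisymm ?_ ?_⟩
  · exact subset_of_H h1 hD hconv hne (fun u => H_le_of h1 h3 hD hne (h5 u) hUB)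
  · exact subset_of_H hD h1 h2 h3 (fun u => H_le_of hD hne h1 h3 (hPL u) h4)

end Pool.Agent.KS6_90.CRG
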