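import Pool.Agent.KS6_90.CRG.Tools

set_option autoImplicit false

open Filter Topology Metric

namespace Pool.Agent.KS6_90.CRG

open Pool.Agent.Helper960.Crg

lemma iter_add (n m : ℕ) (φ : ℂ → ℂ) :
    iteratedDeriv n (iteratedDeriv m φ) = iteratedDeriv (n + m) φ := by
  rw [iteratedDeriv_eq_iterate, iteratedDeriv_eq_iterate, iteratedDeriv_eq_iterate,
    ← Function.iterate_add_apply]

/-- the action on an exponential times a function -/
lemma T_exp_mul {φ g : ℂ → ℂ} {K : Set ℂ} (hφ : Differentiable ℂ φ) (hg : Differentiable ℂ g)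
    (hK : IsCompact K) (hne : K.Nonempty) (hUB : UB g K) (al z : ℂ) :
    T (coef φ) (fun z => Complex.exp (al * z) * g z) z =
      Complex.exp (al * z) * T (coef (fun ζ => φ (al + ζ))) g z := by
  obtain ⟨τ, hτ⟩ := hK.isBounded.exists_norm_le
  have hτ0 : 0 ≤ τ := (norm_nonneg _).trans (hτ _ hne.some_mem)
  obtain ⟨C, hC, hCb⟩ := deriv_bound hg hK hne hUB hτ (b := τ + 2) (ε := 1) one_pos (by linarith)
  set R : ℝ := 4 * (‖al‖ + τ + 2) with hR
  have hR0 : 0 < R := by positivity
  obtain ⟨A, hA, hAb⟩ := Dec_coef hR0 (hφ.diffContOnCl (s := ball 0 R))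
  set F : ℕ × ℕ → ℂ := fun p => iteratedDeriv (p.1 + p.2) φ 0 * al ^ p.1 /
    (p.1.factorial * p.2.factorial) * (Complex.exp (al * z) * iteratedDeriv p.2 g z) with hF
  set E : ℝ := Real.exp (H K z + 1 * ‖z‖) with hE
  have hFs : Summable F := by
    have h1 : Summable (fun p : ℕ × ℕ => (A * (1 / 2) ^ p.1) *
        (‖Complex.exp (al * z)‖ * C * E * (1 / 2) ^ p.2)) :=
      Summable.mul_of_nonneg
        ((summable_geometric_of_lt_one (by norm_num) (by norm_num)).mul_left _)
        ((summable_geometric_of_lt_one (by norm_num) (by norm_num)).mul_left _)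
        (fun n => by positivity) (fun n => by positivity)
    refine Summable.of_norm_bounded h1 ?_
    rintro ⟨i, j⟩
    simp only [hF]
    have hfi : (0 : ℝ) < i.factorial := by exact_mod_cast i.factorial_pos
    have hfj : (0 : ℝ) < j.factorial := by exact_mod_cast j.factorial_pos
    have hfij : (0 : ℝ) < (i + j).factorial := by exact_mod_cast (i + j).factorial_pos
    have h2 : ‖iteratedDeriv (i + j) φ 0‖ ≤ A * (i + j).factorial / R ^ (i + j) := by
      have h3 := hAb (i + j)
      unfold coef at h3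
      rw [norm_div, Complex.norm_natCast, div_mul_eq_mul_div, div_le_iff₀ hfij] at h3
      rw [le_div_iff₀ (by positivity)]
      exact h3
    have h4 : ((i + j).factorial : ℝ) / (i.factorial * j.factorial) ≤ 2 ^ (i + j) := by
      rw [div_le_iff₀ (by positivity)]
      have h5 := Nat.choose_mul_factorial_mul_factorial (Nat.le_add_right i j)
      have h6 : i + j - i = j := by omega
      rw [h6] at h5
      have h7 : (((i + j).choose i : ℕ) : ℝ) ≤ 2 ^ (i + j) := by
        exact_mod_cast Nat.choose_le_two_pow (i + j) i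
      have h8 : ((i + j).factorial : ℝ) = ((i + j).choose i : ℕ) * i.factorial * j.factorial := by
        exact_mod_cast h5.symm
      rw [h8, mul_assoc]
      gcongr
    rw [norm_mul, norm_div, norm_mul, norm_pow, norm_mul, norm_mul, Complex.norm_natCast,
      Complex.norm_natCast]
    have h9 := hCb j z
    have h10 : ‖al‖ / R ≤ 1 / 4 := by
      rw [div_le_iff₀ hR0]; rw [hR]; linarith
    have h11 : (τ + 2) / R ≤ 1 / 4 := by
      rw [div_le_iff₀ hR0]; rw [hR]; linarith [norm_nonneg al]
    calc ‖iteratedDeriv (i + j) φ 0‖ * ‖al‖ ^ i / (i.factorial * j.factorial) *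
          (‖Complex.exp (al * z)‖ * ‖iteratedDeriv j g z‖)
        ≤ (A * (i + j).factorial / R ^ (i + j)) * ‖al‖ ^ i / (i.factorial * j.factorial) *
          (‖Complex.exp (al * z)‖ * (C * (τ + 2) ^ j * E)) := by gcongr
      _ = A * (((i + j).factorial : ℝ) / (i.factorial * j.factorial)) *
          ((‖al‖ / R) ^ i * ((τ + 2) / R) ^ j) * (‖Complex.exp (al * z)‖ * C * E) := by
          rw [div_pow, div_pow, pow_add]
          field_simp
      _ ≤ A * 2 ^ (i + j) * ((1 / 4) ^ i * (1 / 4) ^ j) * (‖Complex.exp (al * z)‖ * C * E) := by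
          gcongr
      _ = (A * (1 / 2) ^ i) * (‖Complex.exp (al * z)‖ * C * E * (1 / 2) ^ j) := by
          have e1 : ∀ n : ℕ, ((1 : ℝ) / 4) ^ n * 2 ^ n = (1 / 2) ^ n := by
            intro n; rw [← mul_pow]; norm_num
          rw [pow_add, ← e1 i, ← e1 j]
          ring
  have hexpd : ∀ n : ℕ, ContDiffAt ℂ (n : WithTop ℕ∞) (fun z => Complex.exp (al * z)) z := fun n =>
    ((((differentiable_id.const_mul al).cexp).analyticAt z)).contDiffAt
  have hgd : ∀ n : ℕ, ContDiffAt ℂ (n : WithTop ℕ∞) g z := fun n => (hg.analyticAt z).contDiffAt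
  have e1 : T (coef φ) (fun z => Complex.exp (al * z) * g z) z =
      ∑' n, ∑ p ∈ Finset.HasAntidiagonal.antidiagonal n, F p := by
    unfold T
    congr 1
    funext n
    have h1 := iteratedDeriv_mul (hexpd n) (hgd n)
    have h1' : iteratedDeriv n (fun z => Complex.exp (al * z) * g z) z =
      ∑ i ∈ Finset.range (n + 1), n.choose i * iteratedDeriv i (fun z => Complex.exp (al * z)) z *
        iteratedDeriv (n - i) g z := h1
    rw [h1', Finset.Nat.sum_antidiagonal_eq_sum_range_succ_mk, Finset.mul_sum]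
    apply Finset.sum_congr rfl
    intro i hi
    rw [Finset.mem_range] at hi
    have hi' : i ≤ n := by omega
    simp only [hF]
    rw [iteratedDeriv_cexp_const_mul]
    unfold coef
    have hn : (n.factorial : ℂ) ≠ 0 := by exact_mod_cast n.factorial_ne_zero
    have hii : (i.factorial : ℂ) ≠ 0 := by exact_mod_cast i.factorial_ne_zero
    have hni : ((n - i).factorial : ℂ) ≠ 0 := by exact_mod_cast (n - i).factorial_ne_zero
    have hch : (n.choose i : ℂ) * i.factorial * (n - i).factorial = n.factorial := by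
      exact_mod_cast Nat.choose_mul_factorial_mul_factorial hi'
    have hin : i + (n - i) = n := by omega
    rw [hin]
    field_simp
    rw [← hch]
    ring
  have e2 : (∑' n, ∑ p ∈ Finset.HasAntidiagonal.antidiagonal n, F p) = ∑' p : ℕ × ℕ, F p := by
    rw [← (Finset.HasAntidiagonal.sigmaAntidiagonalEquivProd).tsum_eq F]
    have h6 : Summable (fun x : (Σ n : ℕ, Finset.HasAntidiagonal.antidiagonal n) =>
        F (Finset.HasAntidiagonal.sigmaAntidiagonalEquivProd x)) :=
      (Finset.HasAntidiagonal.sigmaAntidiagonalEquivProd.summable_iff (f := F)).mpr hFs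
    rw [h6.tsum_sigma]
    congr 1
    funext n
    rw [tsum_fintype, ← Finset.sum_coe_sort (Finset.HasAntidiagonal.antidiagonal n)]
    rfl
  have hsw : Summable (fun p : ℕ × ℕ => F (p.2, p.1)) :=
    (Equiv.prodComm ℕ ℕ).summable_iff.mpr hFs
  have e3 : (∑' p : ℕ × ℕ, F p) = ∑' j, ∑' i, F (i, j) := by
    rw [← (Equiv.prodComm ℕ ℕ).tsum_eq F]
    exact hsw.tsum_prod
  rw [e1, e2, e3]
  unfold T
  rw [← tsum_mul_left]
  congr 1
  funext j
  have hjd : Differentiable ℂ (iteratedDeriv j φ) := iteratedDeriv_diff hφ j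
  have h7 := Complex.taylorSeries_eq_of_entire' 0 al hjd
  simp only [hF]
  have h8 : ∀ i, iteratedDeriv (i + j) φ 0 * al ^ i / (i.factorial * j.factorial) *
      (Complex.exp (al * z) * iteratedDeriv j g z) =
      (((i.factorial : ℂ))⁻¹ * iteratedDeriv i (iteratedDeriv j φ) 0 * (al - 0) ^ i) *
        ((1 / (j.factorial : ℂ)) * (Complex.exp (al * z) * iteratedDeriv j g z)) := by
    intro i
    rw [iter_add, sub_zero]
    have hii : (i.factorial : ℂ) ≠ 0 := by exact_mod_cast i.factorial_ne_zero
    have hjj : (j.factorial : ℂ) ≠ 0 := by exact_mod_cast j.factorial_ne_zero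
    field_simp
  simp_rw [h8]
  rw [tsum_mul_right, h7]
  unfold coef
  have h9 : iteratedDeriv j (fun ζ => φ (al + ζ)) 0 = iteratedDeriv j φ al := by
    have := congrFun (iteratedDeriv_comp_const_add j φ al) 0
    simpa using this
  rw [h9]
  ring

/-- the action on an exponential -/
lemma T_exp {φ : ℂ → ℂ} (hφ : Differentiable ℂ φ) (lam z : ℂ) :
    T (coef φ) (fun z => Complex.exp (lam * z)) z = φ lam * Complex.exp (lam * z) := by
  unfold T
  have h7 := Complex.taylorSeries_eq_of_entire' 0 lam hφ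
  have : ∀ k, coef φ k * iteratedDeriv k (fun z => Complex.exp (lam * z)) z =
      (((k.factorial : ℂ))⁻¹ * iteratedDeriv k φ 0 * (lam - 0) ^ k) * Complex.exp (lam * z) := by
    intro k
    rw [iteratedDeriv_cexp_const_mul]
    unfold coef
    rw [sub_zero]
    ring
  simp_rw [this]
  rw [tsum_mul_right, h7]

end Pool.Agent.KS6_90.CRG
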